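import Pool.Agent.HyD.One

/-!
# Package HyD-Sqf: all polynomials modulo primes

Complete proofs.

* `hn_dec`: for `F = G² F₁`: `qc (F(x)) = qc (F₁(x))` if `G(x) ≠ 0` and `0` otherwise, so
  `HN(F) = HN(F₁) - ∑_{G(x) = 0} qc (F₁(x))` (`hn_qs`).
* `hn_sqf`: squarefree `F` (any degree `≤ D`): if `natDegree F ≤ 4` by `PtC.qn_prime` (the first five
  coefficients); otherwise `g = (natDegree F - 1) / 2 ≥ 1`, `g ≤ D`, and `F` is given by its first
  `2 g + 3` coefficients (put `0` above `D`): `hn_sq`. Finitely many cases of the degree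
  (`PRD.degEq` with `PRc.prd_delta'`).
* `hn_prime`: `p = 2`: `hn_small`. `F = 0` modulo `p`: `HN = p`. Otherwise there are coefficient vectors
  `G`, `F₁` of numbers `< p` (bounded quantifiers, `Delta0.bexVec`) with `F = G² F₁` modulo `p`, `F₁`
  squarefree (exists: `Nat.sq_mul_squarefree`-like in the UFD `(ZMod p)[X]`: choose `G` of maximal
  degree with `G² ∣ F`), `G ≠ 0`, so with at most `D` zeros; `HN(F) + A = HN(F₁) + B` with `A` the number of
  the `x < p` with `G(x) = 0`, `F₁(x)` a nonzero square, `B` that with `F₁(x)` a nonsquare, both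
  definable by `PtC.cnt_small` (`≤ D`). Polynomial identities modulo `p`: `PRD.eqP`, `prd_delta'`.
-/

set_option autoImplicit false

noncomputable section

namespace Pool.Agent.HyD

open Finset Polynomial Pool.Agent.Grz Pool.Agent.HyE Pool.Agent.HyZ
open scoped Classical

/-! ### The polynomial and its coefficients -/

/-- the coefficient, `0` above the degree -/
private def ceSqf {D : ℕ} (c : Fin (D + 1) → ℕ) (i : ℕ) : ℕ :=
  if h : i < D + 1 then c ⟨i, h⟩ else 0

private theorem pz_coeff_Sqf {D : ℕ} (p : ℕ) (c : Fin (D + 1) → ℕ) (i : ℕ) :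
    (pz p c).coeff i = (ceSqf c i : ZMod p) := by
  unfold pz ceSqf
  rw [finsetSum_coeff]
  simp only [coeff_C_mul, coeff_X_pow]
  split_ifs with h
  · rw [Finset.sum_eq_single ⟨i, h⟩]
    · simp
    · intro b _ hb
      have h1 : i ≠ (b : ℕ) := fun e => hb (Fin.ext e.symm)
      rw [if_neg h1, mul_zero]
    · intro h1
      exact absurd (Finset.mem_univ _) h1
  · rw [Nat.cast_zero]
    refine Finset.sum_eq_zero fun b _ => ?_
    have h1 : i ≠ (b : ℕ) := fun e => h (e ▸ b.2)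
    rw [if_neg h1, mul_zero]

private theorem pz_deg_Sqf {D : ℕ} (p : ℕ) (c : Fin (D + 1) → ℕ) : (pz p c).natDegree ≤ D := by
  rw [natDegree_le_iff_coeff_eq_zero]
  intro i hi
  rw [pz_coeff_Sqf]
  unfold ceSqf
  rw [dif_neg (by omega), Nat.cast_zero]

private theorem pz_eval_Sqf {D : ℕ} (p : ℕ) (c : Fin (D + 1) → ℕ) (x : ℕ) :
    (pz p c).eval (x : ZMod p) = ((pv c x : ℕ) : ZMod p) := by
  unfold pz pv
  rw [eval_finsetSum]
  push_cast
  simp

private theorem hn_pz_Sqf {D D' p : ℕ} {c : Fin (D + 1) → ℕ} {c' : Fin (D' + 1) → ℕ}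
    (h : pz p c = pz p c') : HN p c = HN p c' := by
  unfold HN
  congr 1
  ext z
  simp only [mem_filter]
  refine and_congr_right fun _ => ?_
  rw [← ZMod.natCast_eq_natCast_iff, ← ZMod.natCast_eq_natCast_iff, ← pz_eval_Sqf,
    ← pz_eval_Sqf, h]

private theorem pz_trunc_Sqf {D p : ℕ} {c : Fin (D + 1) → ℕ} {k : ℕ}
    (h : (pz p c).natDegree ≤ k) :
    pz p (fun i : Fin (k + 1) => ceSqf c i) = pz p c := by
  ext i
  rw [pz_coeff_Sqf, pz_coeff_Sqf]
  by_cases hi : i < k + 1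
  · have e : ceSqf (fun i : Fin (k + 1) => ceSqf c i) i = ceSqf c i := by
      rw [ceSqf, dif_pos hi]
    rw [e]
  · have e : ceSqf (fun i : Fin (k + 1) => ceSqf c i) i = 0 := by
      rw [ceSqf, dif_neg hi]
    rw [e, Nat.cast_zero, ← pz_coeff_Sqf]
    exact (coeff_eq_zero_of_natDegree_lt (by omega)).symm

private theorem ce_def_Sqf {D n : ℕ} {c : Fin (D + 1) → (Fin n → ℕ) → ℕ}
    (hc : ∀ i, DFun n (c i)) (k : ℕ) : DFun n (fun v => ceSqf (fun i => c i v) k) := by
  unfold ceSqf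
  by_cases h : k < D + 1
  · simp only [dif_pos h]
    exact hc _
  · simp only [dif_neg h]
    exact DFun.const 0

private theorem hn_qn_Sqf (p : ℕ) (a : ℕ → ℕ) :
    HN p (fun i : Fin (4 + 1) => a i) = PtC.QN p (a 0) (a 1) (a 2) (a 3) (a 4) := by
  unfold HN PtC.QN
  congr 1
  ext z
  simp only [mem_filter]
  refine and_congr_right fun _ => ?_
  have e : pv (fun i : Fin (4 + 1) => a i) z.1 = PtC.q4 (a 0) (a 1) (a 2) (a 3) (a 4) z.1 := by
    unfold pv PtC.q4
    simp [Fin.sum_univ_succ]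
    ring
  rw [e]

/-- the vector of the coefficients -/
private theorem pz_coeffs_Sqf {D p : ℕ} [Fact p.Prime] {F : (ZMod p)[X]}
    (h : F.natDegree ≤ D) : pz p (fun i : Fin (D + 1) => (F.coeff i).val) = F := by
  ext i
  rw [pz_coeff_Sqf]
  by_cases hi : i < D + 1
  · rw [ceSqf, dif_pos hi]
    simp
  · rw [ceSqf, dif_neg hi, Nat.cast_zero]
    exact (coeff_eq_zero_of_natDegree_lt (by omega)).symm

/-! ### Sums over the field -/

private theorem sum_range_Sqf {p : ℕ} [Fact p.Prime] (f : ZMod p → ℤ) :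
    ∑ x : ZMod p, f x = ∑ x ∈ range p, f (x : ZMod p) := by
  refine Finset.sum_nbij' (fun y => y.val) (fun x => (x : ZMod p)) ?_ ?_ ?_ ?_ ?_
  · intro y _
    exact Finset.mem_range.2 (ZMod.val_lt y)
  · intro x _
    exact Finset.mem_univ _
  · intro y _
    exact ZMod.natCast_zmod_val y
  · intro x hx
    exact ZMod.val_cast_of_lt (Finset.mem_range.1 hx)
  · intro y _
    rw [ZMod.natCast_zmod_val]

private theorem qs_univ_Sqf {p : ℕ} [Fact p.Prime] (F : (ZMod p)[X]) :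
    qs F = ∑ x : ZMod p, qc (F.eval x) := by
  unfold qs
  rw [finsum_eq_sum_of_fintype]

/-- the set of the residues of the numbers `< p` -/
private theorem bind_Sqf (p : ℕ) [Fact p.Prime] :
    (Bind.bind (range p) fun a => Pure.pure (a : ZMod p)) = (Finset.univ : Finset (ZMod p)) := by
  ext y
  simp only [Finset.bind_def, Finset.mem_sup, Finset.pure_def, Finset.mem_singleton,
    Finset.mem_univ, iff_true]
  exact ⟨y.val, Finset.mem_range.2 (ZMod.val_lt y), (ZMod.natCast_zmod_val y).symm⟩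

private theorem card_range_Sqf {p : ℕ} [Fact p.Prime] (P : ℕ → Prop) (Q : ZMod p → Prop)
    (h : ∀ x : ℕ, P x ↔ Q (x : ZMod p)) :
    #{x ∈ range p | P x} = #(Finset.filter Q Finset.univ) := by
  have h1 := sum_range_Sqf (p := p) (fun x => if Q x then 1 else 0)
  have h2 : ((#(Finset.filter Q Finset.univ) : ℕ) : ℤ) = ((#{x ∈ range p | P x} : ℕ) : ℤ) := by
    rw [Finset.card_filter, Finset.card_filter]
    push_cast
    rw [h1]
    refine Finset.sum_congr rfl fun x _ => ?_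
    simp only [h]
  exact_mod_cast h2.symm

private theorem qs_Sqf {p : ℕ} [Fact p.Prime] (F : (ZMod p)[X]) :
    qs F = ∑ x ∈ range p, qc (F.eval (x : ZMod p)) := by
  unfold qs
  rw [finsum_eq_sum_of_fintype, sum_range_Sqf]

private theorem qc_sq_Sqf {K : Type} [Field K] {a : K} (ha : a ≠ 0) (b : K) :
    qc (a ^ 2 * b) = qc b := by
  have h1 : a ^ 2 * b = 0 ↔ b = 0 := by simp [ha]
  have h2 : IsSquare (a ^ 2 * b) ↔ IsSquare b := by
    constructor
    · rintro ⟨r, hr⟩
      refine ⟨r / a, ?_⟩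
      field_simp
      rw [mul_comm, hr]
      ring
    · rintro ⟨r, hr⟩
      exact ⟨a * r, by rw [hr]; ring⟩
  unfold qc
  simp only [h1, h2]

theorem hn_dec {p : ℕ} [Fact p.Prime] (hp : p ≠ 2) {D : ℕ} (c c₁ : Fin (D + 1) → ℕ)
    {G : (ZMod p)[X]} (h : pz p c = G ^ 2 * pz p c₁) :
    (HN p c : ℤ) + #{x ∈ range p | G.eval (x : ZMod p) = 0 ∧ IsSquare ((pz p c₁).eval (x : ZMod p)) ∧
        (pz p c₁).eval (x : ZMod p) ≠ 0} =
      HN p c₁ + #{x ∈ range p | G.eval (x : ZMod p) = 0 ∧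
        ¬ IsSquare ((pz p c₁).eval (x : ZMod p))} := by
  rw [bind_Sqf, hn_qs hp, hn_qs hp, qs_univ_Sqf, qs_univ_Sqf, Finset.card_filter,
    Finset.card_filter]
  push_cast
  rw [add_assoc, add_assoc, ← Finset.sum_add_distrib, ← Finset.sum_add_distrib]
  congr 1
  refine Finset.sum_congr rfl fun x _ => ?_
  rw [h, eval_mul, eval_pow]
  by_cases h1 : G.eval (x : ZMod p) = 0
  · simp only [h1, true_and, ne_eq]
    rw [zero_pow two_ne_zero, zero_mul]
    unfold qc
    by_cases h2 : (pz p c₁).eval (x : ZMod p) = 0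
    · simp [h2]
    · by_cases h3 : IsSquare ((pz p c₁).eval (x : ZMod p))
      · simp [h2, h3]
      · simp [h2, h3]
  · rw [qc_sq_Sqf h1]
    simp [h1]

/-! ### Definability -/

private theorem prp_pz_Sqf (D : ℕ) {ι : Type} (j : Fin (D + 1) → ι) :
    PRc.PRP (ι := ι) (fun _ _ x => ∑ i, C (x (j i)) * X ^ (i : ℕ)) :=
  PRc.PRP.sum _ fun i _ => (PRc.PRP.C (PRc.PRF.var (j i))).mul (PRc.PRP.X.pow _)

private theorem sqf_delta_Sqf {D n : ℕ} {p : (Fin n → ℕ) → ℕ}
    {c : Fin (D + 1) → (Fin n → ℕ) → ℕ} (hp : DFun n p) (hc : ∀ i, DFun n (c i)) :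
    Delta0 n (fun v => (p v).Prime ∧ p v ≠ 2 ∧ Squarefree (pz (p v) (fun i => c i v))) := by
  have h1 := PRc.prd_delta' (PRc.PRD.coprime (prp_pz_Sqf D id) (prp_pz_Sqf D id).dvt) hp hc
  refine (h1.and (Delta0.eqFun hp (DFun.const 2)).not).of_iff fun v => ?_
  constructor
  · rintro ⟨h, h2, h3⟩
    refine ⟨⟨h, ?_⟩, h2⟩
    have := Fact.mk h
    exact PerfectField.separable_iff_squarefree.2 h3
  · rintro ⟨⟨h, h3⟩, h2⟩
    have := Fact.mk h
    exact ⟨h, h2, PerfectField.separable_iff_squarefree.1 h3⟩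

private theorem hn_low_Sqf {D n : ℕ} {p : (Fin n → ℕ) → ℕ} {c : Fin (D + 1) → (Fin n → ℕ) → ℕ}
    (hp : DFun n p) (hc : ∀ i, DFun n (c i)) :
    DFun n (fun v => if (p v).Prime then PtC.QN (p v) (ceSqf (fun i => c i v) 0)
      (ceSqf (fun i => c i v) 1) (ceSqf (fun i => c i v) 2) (ceSqf (fun i => c i v) 3)
      (ceSqf (fun i => c i v) 4) else 0) := by
  have h1 := PtC.qn_prime.comp (n := n) (h := ![p, fun v => ceSqf (fun i => c i v) 0,
    fun v => ceSqf (fun i => c i v) 1, fun v => ceSqf (fun i => c i v) 2,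
    fun v => ceSqf (fun i => c i v) 3, fun v => ceSqf (fun i => c i v) 4]) (by
      intro i
      fin_cases i
      · exact hp
      · exact ce_def_Sqf hc 0
      · exact ce_def_Sqf hc 1
      · exact ce_def_Sqf hc 2
      · exact ce_def_Sqf hc 3
      · exact ce_def_Sqf hc 4)
  exact h1

private theorem hn_sqf_aux_Sqf {D n : ℕ} {p : (Fin n → ℕ) → ℕ}
    {c : Fin (D + 1) → (Fin n → ℕ) → ℕ} (hp : DFun n p) (hc : ∀ i, DFun n (c i)) (e : ℕ) :
    DFun n (fun v => if ((p v).Prime ∧ p v ≠ 2 ∧ Squarefree (pz (p v) (fun i => c i v))) ∧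
      (pz (p v) (fun i => c i v)).natDegree ≤ e + 4 then
      HN (p v) (fun i => c i v) else 0) := by
  induction e with
  | zero =>
    have h1 := PRc.prd_delta' (PRc.PRD.degLe (prp_pz_Sqf D id) 4) hp hc
    refine ECD.dfun_congr (DFun.ite ((sqf_delta_Sqf hp hc).and h1) (hn_low_Sqf hp hc)
      (DFun.const 0)) fun v => ?_
    by_cases hS : (p v).Prime ∧ p v ≠ 2 ∧ Squarefree (pz (p v) (fun i => c i v))
    · by_cases hd : (pz (p v) (fun i => c i v)).natDegree ≤ 0 + 4
      · rw [if_pos ⟨hS, hd⟩, if_pos ⟨hS, ⟨hS.1, hd⟩⟩, if_pos hS.1, ← hn_qn_Sqf]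
        exact hn_pz_Sqf (pz_trunc_Sqf hd).symm
      · rw [if_neg (fun h => hd h.2), if_neg]
        rintro ⟨-, h2, h3⟩
        exact hd h3
    · rw [if_neg (fun h => hS h.1), if_neg (fun h => hS h.1)]
  | succ e ih =>
    set g := (e + 4) / 2 with hg
    have hg1 : 1 ≤ g := by omega
    have h1 := PRc.prd_delta' (PRc.PRD.degEq (prp_pz_Sqf D id) (e + 5)) hp hc
    have h2 := hn_sq hg1 (c := fun (i : Fin (2 * g + 2 + 1)) v => ceSqf (fun j => c j v) i) hp
      (fun i => ce_def_Sqf hc i)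
    refine ECD.dfun_congr (DFun.ite h1 h2 ih) fun v => ?_
    by_cases hP : (p v).Prime
    · have := Fact.mk hP
      by_cases hd : (pz (p v) (fun i => c i v)).natDegree = e + 5
      · have e1 : pz (p v) (fun i : Fin (2 * g + 2 + 1) => ceSqf (fun j => c j v) i) =
            pz (p v) (fun i => c i v) := pz_trunc_Sqf (by omega)
        have e2 : HN (p v) (fun i : Fin (2 * g + 2 + 1) => ceSqf (fun j => c j v) i) =
            HN (p v) (fun i => c i v) := hn_pz_Sqf e1
        have e3 : (∃ h : (p v).Prime, haveI := Fact.mk h;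
            (fun (k : Type) [Field k] (x : Fin (D + 1) → k) =>
              (∑ i, C (x (id i)) * X ^ (i : ℕ) : k[X]).natDegree = e + 5)
              (ZMod (p v)) (fun i => (c i v : ZMod (p v)))) := ⟨hP, hd⟩
        rw [if_pos e3, e2]
        by_cases hS : p v ≠ 2 ∧ Squarefree (pz (p v) (fun i => c i v))
        · rw [if_pos ⟨⟨hP, hS⟩, by omega⟩, if_pos]
          refine ⟨hP, hS.1, ?_, ?_⟩
          · rw [e1]
            exact hS.2
          · rw [e1]
            omega
        · rw [if_neg (fun h => hS h.1.2), if_neg]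
          rintro ⟨-, h3, h4, -⟩
          rw [e1] at h4
          exact hS ⟨h3, h4⟩
      · have e3 : ¬ (∃ h : (p v).Prime, haveI := Fact.mk h;
            (fun (k : Type) [Field k] (x : Fin (D + 1) → k) =>
              (∑ i, C (x (id i)) * X ^ (i : ℕ) : k[X]).natDegree = e + 5)
              (ZMod (p v)) (fun i => (c i v : ZMod (p v)))) := fun h => hd h.2
        rw [if_neg e3]
        have e4 : (pz (p v) (fun i => c i v)).natDegree ≤ e + 1 + 4 ↔
            (pz (p v) (fun i => c i v)).natDegree ≤ e + 4 := by omega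
        simp only [e4]
    · have e3 : ¬ (∃ h : (p v).Prime, haveI := Fact.mk h;
          (fun (k : Type) [Field k] (x : Fin (D + 1) → k) =>
            (∑ i, C (x (id i)) * X ^ (i : ℕ) : k[X]).natDegree = e + 5)
            (ZMod (p v)) (fun i => (c i v : ZMod (p v)))) := fun h => hP h.1
      rw [if_neg e3, if_neg (fun h => hP h.1.1), if_neg (fun h => hP h.1.1)]

theorem hn_sqf {D n : ℕ} {p : (Fin n → ℕ) → ℕ} {c : Fin (D + 1) → (Fin n → ℕ) → ℕ}
    (hp : DFun n p) (hc : ∀ i, DFun n (c i)) :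
    DFun n (fun v => if (p v).Prime ∧ p v ≠ 2 ∧ Squarefree (pz (p v) (fun i => c i v)) then
      HN (p v) (fun i => c i v) else 0) := by
  refine ECD.dfun_congr (hn_sqf_aux_Sqf hp hc D) fun v => ?_
  have h1 : (pz (p v) (fun i => c i v)).natDegree ≤ D + 4 :=
    (pz_deg_Sqf _ _).trans (Nat.le_add_right _ _)
  simp only [h1, and_true]

/-! ### The squarefree part -/

private theorem exists_sqf_Sqf {K : Type} [Field K] {F : K[X]} (hF : F ≠ 0) :
    ∃ G F₁ : K[X], F = G ^ 2 * F₁ ∧ Squarefree F₁ := by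
  have hb : ∀ m : ℕ, (∃ G : K[X], G ^ 2 ∣ F ∧ G.natDegree = m) → m ≤ F.natDegree := by
    rintro m ⟨G, hG, rfl⟩
    have h1 := natDegree_le_of_dvd hG hF
    rw [natDegree_pow] at h1
    omega
  have hex : ∃ m : ℕ, ∃ G : K[X], G ^ 2 ∣ F ∧ G.natDegree = m := ⟨0, 1, by simp, natDegree_one⟩
  obtain ⟨m, ⟨G, ⟨F₁, hF₁⟩, hm⟩, hmax⟩ : ∃ m : ℕ, (∃ G : K[X], G ^ 2 ∣ F ∧ G.natDegree = m) ∧
      ∀ m' : ℕ, (∃ G : K[X], G ^ 2 ∣ F ∧ G.natDegree = m') → m' ≤ m := by
    obtain ⟨m₀, hm₀⟩ := hex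
    refine ⟨Nat.findGreatest (fun m => ∃ G : K[X], G ^ 2 ∣ F ∧ G.natDegree = m) F.natDegree,
      Nat.findGreatest_spec (P := fun m => ∃ G : K[X], G ^ 2 ∣ F ∧ G.natDegree = m)
        (hb m₀ hm₀) hm₀, fun m' hm' => Nat.le_findGreatest (hb m' hm') hm'⟩
  refine ⟨G, F₁, hF₁, ?_⟩
  intro A hA
  have hGA : (G * A) ^ 2 ∣ F := by
    rw [hF₁, mul_pow]
    refine mul_dvd_mul_left _ ?_
    rw [sq]
    exact hA
  have h1 := hmax _ ⟨G * A, hGA, rfl⟩
  have hne : G * A ≠ 0 := by
    rintro h0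
    rw [h0, zero_pow two_ne_zero, zero_dvd_iff] at hGA
    exact hF hGA
  have hA0 : A ≠ 0 := right_ne_zero_of_mul hne
  rw [natDegree_mul (left_ne_zero_of_mul hne) hA0] at h1
  rw [isUnit_iff_degree_eq_zero, degree_eq_natDegree hA0]
  have h2 : A.natDegree = 0 := by omega
  rw [h2]
  rfl

/-! ### All polynomials -/

private def SAq (p a : ℕ) : Prop := ∃ y, y ≤ p ∧ (y * y) % p = a % p

private theorem saq_iff_Sqf {p : ℕ} [Fact p.Prime] {D : ℕ} (c : Fin (D + 1) → ℕ) (x : ℕ) :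
    SAq p (pv c x) ↔ IsSquare ((pz p c).eval (x : ZMod p)) := by
  rw [pz_eval_Sqf]
  constructor
  · rintro ⟨y, -, hy⟩
    refine ⟨(y : ZMod p), ?_⟩
    rw [← Nat.cast_mul, ZMod.natCast_eq_natCast_iff]
    exact hy.symm
  · rintro ⟨y, hy⟩
    refine ⟨y.val, (ZMod.val_lt y).le, ?_⟩
    have h1 : ((y.val * y.val : ℕ) : ZMod p) = ((pv c x : ℕ) : ZMod p) := by
      rw [hy]
      push_cast
      rw [ZMod.natCast_zmod_val]
    exact (ZMod.natCast_eq_natCast_iff _ _ _).1 h1

private theorem zero_iff_Sqf {p : ℕ} {D : ℕ} (c : Fin (D + 1) → ℕ) (x : ℕ) :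
    pv c x % p = 0 ↔ (pz p c).eval (x : ZMod p) = 0 := by
  rw [pz_eval_Sqf, ZMod.natCast_eq_zero_iff]
  exact (Nat.dvd_iff_mod_eq_zero).symm

private theorem saq_def_Sqf {n : ℕ} {p a : (Fin n → ℕ) → ℕ} (hp : DFun n p) (ha : DFun n a) :
    Delta0 n (fun v => SAq (p v) (a v)) := by
  refine Delta0.bexFun (P := fun y v => (y * y) % p v = a v % p v) hp ?_
  exact Delta0.eqFun (PTr.DFun.modAny ((DFun.proj 0).mul (DFun.proj 0)) hp.weak)
    (PTr.DFun.modAny ha.weak hp.weak)

private def nA {D : ℕ} (p : ℕ) (G F : Fin (D + 1) → ℕ) : ℕ :=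
  #{x ∈ range p | pv G x % p = 0 ∧ SAq p (pv F x) ∧ pv F x % p ≠ 0}

private def nB {D : ℕ} (p : ℕ) (G F : Fin (D + 1) → ℕ) : ℕ :=
  #{x ∈ range p | pv G x % p = 0 ∧ ¬ SAq p (pv F x)}

private theorem roots_le_Sqf {p : ℕ} [Fact p.Prime] {D : ℕ} {G : Fin (D + 1) → ℕ}
    (hG : pz p G ≠ 0) : #{x ∈ range p | pv G x % p = 0} ≤ D := by
  have h1 : #{x ∈ range p | pv G x % p = 0} ≤ #(pz p G).roots.toFinset := by
    refine Finset.card_le_card_of_injOn (fun x => (x : ZMod p)) ?_ ?_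
    · intro x hx
      rw [Finset.mem_coe, Finset.mem_filter] at hx
      rw [Finset.mem_coe, Multiset.mem_toFinset, mem_roots hG]
      exact (zero_iff_Sqf G x).1 hx.2
    · intro x hx y hy hxy
      rw [Finset.mem_coe, Finset.mem_filter, Finset.mem_range] at hx hy
      have h2 := (ZMod.natCast_eq_natCast_iff _ _ _).1 hxy
      rw [Nat.ModEq, Nat.mod_eq_of_lt hx.1, Nat.mod_eq_of_lt hy.1] at h2
      exact h2
  exact h1.trans ((Multiset.toFinset_card_le _).trans ((card_roots' _).trans (pz_deg_Sqf _ _)))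

private theorem nA_le_Sqf {p : ℕ} [Fact p.Prime] {D : ℕ} {G : Fin (D + 1) → ℕ}
    (hG : pz p G ≠ 0) (F : Fin (D + 1) → ℕ) : nA p G F ≤ D := by
  refine le_trans (Finset.card_le_card fun x hx => ?_) (roots_le_Sqf hG)
  rw [Finset.mem_filter] at hx ⊢
  exact ⟨hx.1, hx.2.1⟩

private theorem nB_le_Sqf {p : ℕ} [Fact p.Prime] {D : ℕ} {G : Fin (D + 1) → ℕ}
    (hG : pz p G ≠ 0) (F : Fin (D + 1) → ℕ) : nB p G F ≤ D := by
  refine le_trans (Finset.card_le_card fun x hx => ?_) (roots_le_Sqf hG)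
  rw [Finset.mem_filter] at hx ⊢
  exact ⟨hx.1, hx.2.1⟩

private theorem dec_nat_Sqf {p : ℕ} [Fact p.Prime] (hp : p ≠ 2) {D : ℕ}
    {c G F : Fin (D + 1) → ℕ} (h : pz p c = pz p G ^ 2 * pz p F) :
    HN p c + nA p G F = HN p F + nB p G F := by
  have h1 := hn_dec hp c F h
  rw [bind_Sqf] at h1
  have e1 : nA p G F = #{x ∈ (Finset.univ : Finset (ZMod p)) | (pz p G).eval x = 0 ∧
      IsSquare ((pz p F).eval x) ∧ (pz p F).eval x ≠ 0} := by
    unfold nA
    convert card_range_Sqf (fun x => pv G x % p = 0 ∧ SAq p (pv F x) ∧ pv F x % p ≠ 0)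
      (fun x : ZMod p => (pz p G).eval x = 0 ∧ IsSquare ((pz p F).eval x) ∧
        (pz p F).eval x ≠ 0) (fun x => ?_)
    rw [zero_iff_Sqf, saq_iff_Sqf, ne_eq, ne_eq, zero_iff_Sqf]
  have e2 : nB p G F = #{x ∈ (Finset.univ : Finset (ZMod p)) | (pz p G).eval x = 0 ∧
      ¬ IsSquare ((pz p F).eval x)} := by
    unfold nB
    convert card_range_Sqf (fun x => pv G x % p = 0 ∧ ¬ SAq p (pv F x))
      (fun x : ZMod p => (pz p G).eval x = 0 ∧ ¬ IsSquare ((pz p F).eval x)) (fun x => ?_)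
    rw [zero_iff_Sqf, saq_iff_Sqf]
  have h2 : (HN p c : ℤ) + nA p G F = HN p F + nB p G F := by
    rw [e1, e2]
    convert h1
  exact_mod_cast h2

private theorem nA_def_Sqf {D n : ℕ} {p : (Fin n → ℕ) → ℕ} {G F : Fin (D + 1) → (Fin n → ℕ) → ℕ}
    (hp : DFun n p) (hG : ∀ i, DFun n (G i)) (hF : ∀ i, DFun n (F i)) :
    DFun n (fun v => min D (nA (p v) (fun i => G i v) (fun i => F i v))) := by
  have h1 := pv_def (c := fun i (w : Fin (n + 1) → ℕ) => G i (fun j => w j.succ))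
    (fun i => (hG i).weak) (DFun.proj 0)
  have h2 := pv_def (c := fun i (w : Fin (n + 1) → ℕ) => F i (fun j => w j.succ))
    (fun i => (hF i).weak) (DFun.proj 0)
  refine ECD.dfun_congr (PtC.cnt_small D (A := fun x v => pv (fun i => G i v) x % p v = 0 ∧
    SAq (p v) (pv (fun i => F i v) x) ∧ pv (fun i => F i v) x % p v ≠ 0) hp
    ((Delta0.eqFun (PTr.DFun.modAny h1 hp.weak) (DFun.const 0)).and
      ((saq_def_Sqf hp.weak h2).and
        (Delta0.eqFun (PTr.DFun.modAny h2 hp.weak) (DFun.const 0)).not))) fun v => ?_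
  refine congrArg (min D) (congrArg Finset.card (Finset.ext fun x => ?_))
  simp only [mem_filter]

private theorem nB_def_Sqf {D n : ℕ} {p : (Fin n → ℕ) → ℕ} {G F : Fin (D + 1) → (Fin n → ℕ) → ℕ}
    (hp : DFun n p) (hG : ∀ i, DFun n (G i)) (hF : ∀ i, DFun n (F i)) :
    DFun n (fun v => min D (nB (p v) (fun i => G i v) (fun i => F i v))) := by
  have h1 := pv_def (c := fun i (w : Fin (n + 1) → ℕ) => G i (fun j => w j.succ))
    (fun i => (hG i).weak) (DFun.proj 0)
  have h2 := pv_def (c := fun i (w : Fin (n + 1) → ℕ) => F i (fun j => w j.succ))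
    (fun i => (hF i).weak) (DFun.proj 0)
  refine ECD.dfun_congr (PtC.cnt_small D (A := fun x v => pv (fun i => G i v) x % p v = 0 ∧
    ¬ SAq (p v) (pv (fun i => F i v) x)) hp
    ((Delta0.eqFun (PTr.DFun.modAny h1 hp.weak) (DFun.const 0)).and
      (saq_def_Sqf hp.weak h2).not)) fun v => ?_
  refine congrArg (min D) (congrArg Finset.card (Finset.ext fun x => ?_))
  simp only [mem_filter]

/-- the number of the solutions, if the polynomial is squarefree -/
private def HS {D : ℕ} (p : ℕ) (c : Fin (D + 1) → ℕ) : ℕ :=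
  if p.Prime ∧ p ≠ 2 ∧ Squarefree (pz p c) then HN p c else 0

/-- the decomposition, with the number `z` of the solutions -/
private def DecN {D : ℕ} (p z : ℕ) (c G F : Fin (D + 1) → ℕ) : Prop :=
  (∃ h : p.Prime, haveI := Fact.mk h; pz p c = pz p G ^ 2 * pz p F) ∧
    (p.Prime ∧ p ≠ 2 ∧ Squarefree (pz p F)) ∧
    z + min D (nA p G F) = HS p F + min D (nB p G F)

private theorem decN_def_Sqf {D n : ℕ} {p z : (Fin n → ℕ) → ℕ}
    {c G F : Fin (D + 1) → (Fin n → ℕ) → ℕ} (hp : DFun n p) (hz : DFun n z)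
    (hc : ∀ i, DFun n (c i)) (hG : ∀ i, DFun n (G i)) (hF : ∀ i, DFun n (F i)) :
    Delta0 n (fun v => DecN (p v) (z v) (fun i => c i v) (fun i => G i v) (fun i => F i v)) := by
  have h1 := PRc.prd_delta' (ι := Fin 3 × Fin (D + 1)) (PRc.PRD.eqP
    (prp_pz_Sqf D (fun i => ((0 : Fin 3), i)))
    (((prp_pz_Sqf D (fun i => ((1 : Fin 3), i))).pow 2).mul
      (prp_pz_Sqf D (fun i => ((2 : Fin 3), i))))) hp
    (a := fun x v => (![c x.2, G x.2, F x.2] x.1) v) (by
      rintro ⟨a, i⟩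
      fin_cases a
      · exact hc i
      · exact hG i
      · exact hF i)
  exact h1.and ((sqf_delta_Sqf hp hF).and (Delta0.eqFun (hz.add (nA_def_Sqf hp hG hF))
    ((hn_sqf hp hF).add (nB_def_Sqf hp hG hF))))

private theorem hn_le_Sqf {D : ℕ} (p : ℕ) (c : Fin (D + 1) → ℕ) : HN p c ≤ p * p := by
  unfold HN
  refine (Finset.card_filter_le _ _).trans ?_
  rw [Finset.card_product, Finset.card_range]

private theorem decN_iff_Sqf {D : ℕ} {p : ℕ} (hp : p.Prime) (hp2 : p ≠ 2) {c : Fin (D + 1) → ℕ}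
    (h0 : pz p c ≠ 0) (z : ℕ) :
    z = HN p c ↔ ∃ G : Fin (D + 1) → ℕ, (∀ k, G k ≤ p) ∧ ∃ F : Fin (D + 1) → ℕ,
      (∀ k, F k ≤ p) ∧ DecN p z c G F := by
  have := Fact.mk hp
  constructor
  · rintro rfl
    obtain ⟨G, F, hGF, hF⟩ := exists_sqf_Sqf h0
    have hG0 : G ≠ 0 := by
      rintro rfl
      apply h0
      rw [hGF]
      simp
    have hF0 : F ≠ 0 := hF.ne_zero
    have hdeg : 2 * G.natDegree + F.natDegree ≤ D := by
      have h1 := pz_deg_Sqf p c
      rw [hGF, natDegree_mul (pow_ne_zero _ hG0) hF0, natDegree_pow] at h1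
      exact h1
    have eG := pz_coeffs_Sqf (D := D) (F := G) (by omega)
    have eF := pz_coeffs_Sqf (D := D) (F := F) (by omega)
    refine ⟨fun i => (G.coeff i).val, fun k => (ZMod.val_lt _).le,
      fun i => (F.coeff i).val, fun k => (ZMod.val_lt _).le, ⟨hp, ?_⟩, ⟨hp, hp2, ?_⟩, ?_⟩
    · rw [eG, eF]
      exact hGF
    · rw [eF]
      exact hF
    · have h2 : pz p c = pz p (fun i : Fin (D + 1) => (G.coeff i).val) ^ 2 *
          pz p (fun i : Fin (D + 1) => (F.coeff i).val) := by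
        rw [eG, eF]
        exact hGF
      have hne : pz p (fun i : Fin (D + 1) => (G.coeff i).val) ≠ 0 := by
        rw [eG]
        exact hG0
      rw [min_eq_right (nA_le_Sqf hne _), min_eq_right (nB_le_Sqf hne _), dec_nat_Sqf hp2 h2, HS,
        if_pos]
      refine ⟨hp, hp2, ?_⟩
      rw [eF]
      exact hF
  · rintro ⟨G, -, F, -, ⟨_, h1⟩, h2, h3⟩
    have hne : pz p G ≠ 0 := by
      intro h
      apply h0
      rw [h1, h]
      simp
    rw [min_eq_right (nA_le_Sqf hne _), min_eq_right (nB_le_Sqf hne _), HS, if_pos h2] at h3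
    have h4 := dec_nat_Sqf hp2 h1
    omega

private theorem hn_zero_Sqf {D : ℕ} {p : ℕ} (hp : p.Prime) (hp2 : p ≠ 2) {c : Fin (D + 1) → ℕ}
    (h0 : pz p c = 0) : HN p c = p := by
  have := Fact.mk hp
  have h1 := hn_qs hp2 c
  rw [h0, qs_Sqf] at h1
  have h2 : ∑ x ∈ range p, qc ((0 : (ZMod p)[X]).eval (x : ZMod p)) = 0 := by
    refine Finset.sum_eq_zero fun x _ => ?_
    rw [eval_zero, qc, if_pos rfl]
  rw [h2, add_zero] at h1
  exact_mod_cast h1

theorem hn_prime {D n : ℕ} {p : (Fin n → ℕ) → ℕ} {c : Fin (D + 1) → (Fin n → ℕ) → ℕ}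
    (hp : DFun n p) (hc : ∀ i, DFun n (c i)) :
    DFun n (fun v => if (p v).Prime then HN (p v) (fun i => c i v) else 0) := by
  refine DFun.ofGraph (hp.mul hp) (fun v => ?_) ?_
  · split_ifs
    · exact hn_le_Sqf _ _
    · exact Nat.zero_le _
  have hp' := hp.weak
  have hc' : ∀ i, DFun (n + 1) (fun w => c i (fun j => w j.succ)) := fun i => (hc i).weak
  have h0 := DFun.proj (n := n + 1) 0
  -- the cases
  have hP := ECD.delta_prime hp'
  have hZ := PRc.prd_delta' (PRc.PRD.zeroP (prp_pz_Sqf D id)) hp' hc'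
  have hS := hn_small 2 hp' hc'
  have hE : Delta0 (n + 1) (fun w => ∃ G : Fin (D + 1) → ℕ,
      (∀ k, G k ≤ p (fun j => w j.succ)) ∧ ∃ F : Fin (D + 1) → ℕ,
      (∀ k, F k ≤ p (fun j => w j.succ)) ∧
        DecN (p (fun j => w j.succ)) (w 0) (fun i => c i (fun j => w j.succ)) G F) := by
    refine PTr.Delta0.bexVec (D := D + 1) (b := fun w => p (fun j => w j.succ)) hp'
      (P := fun G w => ∃ F : Fin (D + 1) → ℕ, (∀ k, F k ≤ p (fun j => w j.succ)) ∧
        DecN (p (fun j => w j.succ)) (w 0) (fun i => c i (fun j => w j.succ)) G F) ?_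
    intro m x v hx hv
    refine PTr.Delta0.bexVec (D := D + 1) (b := fun w => p (fun j => v j.succ w))
      (hp.comp fun j => hv j.succ)
      (P := fun F w => DecN (p (fun j => v j.succ w)) (v 0 w)
        (fun i => c i (fun j => v j.succ w)) (fun k => x k w) F) ?_
    intro m' x' v' hx' hv'
    exact decN_def_Sqf (p := fun w => p (fun j => v j.succ (fun i => v' i w)))
      (z := fun w => v 0 (fun i => v' i w))
      (c := fun i w => c i (fun j => v j.succ (fun i => v' i w)))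
      (G := fun k w => x k (fun i => v' i w)) (F := fun k w => x' k w)
      (hp.comp fun j => (hv j.succ).comp hv') ((hv 0).comp hv')
      (fun i => (hc i).comp fun j => (hv j.succ).comp hv') (fun k => (hx k).comp hv')
      (fun k => hx' k)
  refine (((hP.not.and (Delta0.eqFun h0 (DFun.const 0))).or
    ((Delta0.eqFun hp' (DFun.const 2)).and (Delta0.eqFun h0 hS))).or
    ((hP.and (Delta0.eqFun hp' (DFun.const 2)).not).and ((hZ.and (Delta0.eqFun h0 hp')).or
      (hZ.not.and hE)))).of_iff fun w => ?_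
  generalize hv : (fun i => w (Fin.succ i)) = v
  by_cases h1 : (p v).Prime
  · rw [if_pos h1]
    by_cases h2 : p v = 2
    · rw [if_pos h2.le]
      constructor
      · intro h
        exact Or.inl (Or.inr ⟨h2, h⟩)
      · rintro ((h | h) | ⟨h, -⟩)
        · exact absurd h1 h.1
        · exact h.2
        · exact absurd h2 h.2
    · by_cases h3 : pz (p v) (fun i => c i v) = 0
      · have h4 : (∃ h : (p v).Prime, haveI := Fact.mk h;
            (fun (k : Type) [Field k] (x : Fin (D + 1) → k) =>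
              (∑ i, C (x (id i)) * X ^ (i : ℕ) : k[X]) = 0)
              (ZMod (p v)) (fun i => (c i v : ZMod (p v)))) := ⟨h1, h3⟩
        rw [hn_zero_Sqf h1 h2 h3]
        constructor
        · intro h
          exact Or.inr ⟨⟨h1, h2⟩, Or.inl ⟨h4, h⟩⟩
        · rintro ((h | h) | ⟨-, h | h⟩)
          · exact absurd h1 h.1
          · exact absurd h.1 h2
          · exact h.2
          · exact absurd h4 h.1
      · have h4 : ¬ (∃ h : (p v).Prime, haveI := Fact.mk h;
            (fun (k : Type) [Field k] (x : Fin (D + 1) → k) =>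
              (∑ i, C (x (id i)) * X ^ (i : ℕ) : k[X]) = 0)
              (ZMod (p v)) (fun i => (c i v : ZMod (p v)))) := fun h => h3 h.2
        rw [decN_iff_Sqf h1 h2 h3]
        constructor
        · intro h
          exact Or.inr ⟨⟨h1, h2⟩, Or.inr ⟨h4, h⟩⟩
        · rintro ((h | h) | ⟨-, h | h⟩)
          · exact absurd h1 h.1
          · exact absurd h.1 h2
          · exact absurd h.1 h4
          · exact h.2
  · rw [if_neg h1]
    constructor
    · intro h
      exact Or.inl (Or.inl ⟨h1, h⟩)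
    · rintro ((h | h) | ⟨h, -⟩)
      · exact h.2
      · exact absurd (h.1 ▸ Nat.prime_two) h1
      · exact absurd h.1 h1

end Pool.Agent.HyD
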