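import Pool.Agent.HyE.FDefs
import Pool.Agent.HyZ.Defs
import Pool.Agent.PRc.Delta
import Pool.Agent.PtC.Final

/-!
# Numbers of solutions of equations of degree two in `y`: definitions

Project HYP (`MP_a56640_lc`).

* `pv c x = ∑ c_i x^i`; `HN m c`: the number of the solutions of `y² = ∑ c_i x^i` modulo `m`;
* `BN m c`: the number of the solutions of `∑_{j ≤ 2} ∑_i c_(j,i) x^i y^j = 0` modulo `m`;
* `pz p c`: the polynomial over `ZMod p`; `hcl`, `H0`, `H1`: numbers of reduced pairs;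
* `VH`, `Gd`, `Sq`: conditions.
-/

set_option autoImplicit false

noncomputable section

namespace Pool.Agent.HyD

open Finset Polynomial Pool.Agent.HyE Pool.Agent.HyZ
open scoped Classical

/-- the value of the polynomial with the coefficients `c` -/
def pv {D : ℕ} (c : Fin (D + 1) → ℕ) (x : ℕ) : ℕ := ∑ i, c i * x ^ (i : ℕ)

/-- the number of the solutions of `y ^ 2 = ∑ c_i x ^ i` modulo `m` -/
def HN {D : ℕ} (m : ℕ) (c : Fin (D + 1) → ℕ) : ℕ :=
  #{z ∈ range m ×ˢ range m | z.2 ^ 2 ≡ pv c z.1 [MOD m]}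

/-- the number of the solutions of `∑_{j ≤ 2} ∑_i c_(j,i) x ^ i y ^ j = 0` modulo `m` -/
def BN {D : ℕ} (m : ℕ) (c : Fin 3 → Fin (D + 1) → ℕ) : ℕ :=
  #{z ∈ range m ×ˢ range m | m ∣ ∑ j, ∑ i, c j i * z.1 ^ (i : ℕ) * z.2 ^ (j : ℕ)}

/-- the polynomial over `ZMod p` -/
def pz (p : ℕ) {D : ℕ} (c : Fin (D + 1) → ℕ) : (ZMod p)[X] :=
  ∑ i, C (c i : ZMod p) * X ^ (i : ℕ)

/-- the number of the reduced pairs of the curve `y ^ 2 = pz p c` -/
def hcl (p : ℕ) {D : ℕ} (c : Fin (D + 1) → ℕ) : ℕ :=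
  if h : p.Prime then haveI := Fact.mk h; Nat.card (CanS (pz p c)) else 0

/-- `p` is a prime, the polynomial is `Inert` of degree `2 g + 2`, and there is a point if `g` is
odd. -/
def VH (g p : ℕ) (c : Fin (2 * g + 2 + 1) → ℕ) : Prop :=
  ∃ h : p.Prime, haveI := Fact.mk h; Inert (pz p c) ∧ (pz p c).natDegree = 2 * g + 2 ∧
    (g % 2 = 1 → ∃ a b : ZMod p, b ^ 2 = (pz p c).eval a)

/-- `p` is an odd prime and the polynomial is squarefree of degree `2 g + 1` or `2 g + 2` modulo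
`p`. -/
def Sq (g p : ℕ) (c : Fin (2 * g + 2 + 1) → ℕ) : Prop :=
  ∃ h : p.Prime, haveI := Fact.mk h; p ≠ 2 ∧ Squarefree (pz p c) ∧
    2 * g + 1 ≤ (pz p c).natDegree

/-- moreover `F(x₀)` is a nonsquare and `F(x₁)` a nonzero square -/
def Gd (g p x₀ x₁ : ℕ) (c : Fin (2 * g + 2 + 1) → ℕ) : Prop :=
  ∃ h : p.Prime, haveI := Fact.mk h; p ≠ 2 ∧ Squarefree (pz p c) ∧
    2 * g + 1 ≤ (pz p c).natDegree ∧ ¬ IsSquare ((pz p c).eval (x₀ : ZMod p)) ∧
    IsSquare ((pz p c).eval (x₁ : ZMod p)) ∧ (pz p c).eval (x₁ : ZMod p) ≠ 0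

/-- the number of the reduced pairs of the first model -/
def H0 (g p x₀ : ℕ) (c : Fin (2 * g + 2 + 1) → ℕ) : ℕ :=
  if h : p.Prime then haveI := Fact.mk h; Nat.card (CanS (mb g (pz p c) (x₀ : ZMod p))) else 0

/-- the number of the reduced pairs of the second model -/
def H1 (g p x₀ x₁ : ℕ) (c : Fin (2 * g + 2 + 1) → ℕ) : ℕ :=
  if h : p.Prime then haveI := Fact.mk h;
    Nat.card (CanS (C ((pz p c).eval (x₀ : ZMod p)) * mb g (pz p c) (x₁ : ZMod p))) else 0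

end Pool.Agent.HyD
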