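import Pool.Agent.HyD.Two

/-!
# Package HyD-Fin: squarefree moduli

Complete proof. As `pn_sqf` in PtC/Final.lean: `PtC.crt_sqf` with
`R m x y := m ∣ ∑ j, ∑ i, c j i * x ^ i * y ^ j` gives `BN m c = ∏ p ∈ m.primeFactors, BN p c` for
squarefree `m`; `PtC.dfun_prodPF` with `bn_prime` and the bound `m²`.
-/

set_option autoImplicit false

noncomputable section

namespace Pool.Agent.HyD

open Finset Polynomial Pool.Agent.Grz Pool.Agent.HyE Pool.Agent.HyZ
open Pool.Agent.GAvg Pool.Agent.PTr Pool.Agent.MTr Pool.Agent.LPC Pool.Agent.ECD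
open scoped Classical

private theorem fin_sqf {n : ℕ} {f : (Fin n → ℕ) → ℕ} (hf : DFun n f) :
    Delta0 n (fun v => Squarefree (f v)) := by
  have h1 : Delta0 (n + 1) (fun w => w 0 * w 0 ∣ f (fun i => w i.succ) → w 0 = 1) :=
    (delta_dvd ((DFun.proj 0).mul (DFun.proj 0)) hf.weak).imp
      (Delta0.eqFun (DFun.proj 0) (DFun.const 1))
  refine ((Delta0.ltFun (DFun.const 0) hf).and (Delta0.ballFun
    (P := fun x v => x * x ∣ f v → x = 1) hf h1)).of_iff fun v => ?_
  constructor
  · intro h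
    exact ⟨Nat.pos_of_ne_zero h.ne_zero, fun x _ hx => Nat.isUnit_iff.1 (h x hx)⟩
  · rintro ⟨h0, h⟩ x hx
    refine Nat.isUnit_iff.2 (h x ?_ hx)
    have h2 : x * x ≤ f v := Nat.le_of_dvd h0 hx
    exact (Nat.le_mul_self x).trans h2

private theorem fin_card (m : ℕ) (P : ℕ × ℕ → Prop) [DecidablePred P] :
    #{z ∈ range m ×ˢ range m | P z} ≤ m ^ 2 := by
  refine (Finset.card_filter_le _ _).trans ?_
  rw [Finset.card_product, Finset.card_range, pow_two]

private theorem fin_crt {D m : ℕ} (hm : Squarefree m) (c : Fin 3 → Fin (D + 1) → ℕ) :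
    BN m c = ∏ p ∈ m.primeFactors, BN p c := by
  have h := PtC.crt_sqf (fun m x y => m ∣ ∑ j, ∑ i, c j i * x ^ (i : ℕ) * y ^ (j : ℕ))
    (fun m x y => ?_) (fun k l x y hkl => ?_) (one_dvd _) hm
  · unfold BN
    convert h using 2
    · congr
    · congr
  · have e1 : ((∑ j, ∑ i, c j i * (x % m) ^ (i : ℕ) * (y % m) ^ (j : ℕ) : ℕ) : ZMod m) =
        ((∑ j, ∑ i, c j i * x ^ (i : ℕ) * y ^ (j : ℕ) : ℕ) : ZMod m) := by
      push_cast
      simp only [ZMod.natCast_mod]
    change m ∣ ∑ j, ∑ i, c j i * (x % m) ^ (i : ℕ) * (y % m) ^ (j : ℕ) ↔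
      m ∣ ∑ j, ∑ i, c j i * x ^ (i : ℕ) * y ^ (j : ℕ)
    rw [← ZMod.natCast_eq_zero_iff, ← ZMod.natCast_eq_zero_iff, e1]
  · constructor
    · intro h
      exact ⟨(Dvd.intro _ rfl).trans h, (Dvd.intro_left _ rfl).trans h⟩
    · rintro ⟨h1, h2⟩
      exact Nat.Coprime.mul_dvd_of_dvd_of_dvd hkl h1 h2

theorem bn_sqf {D n : ℕ} {m : (Fin n → ℕ) → ℕ} {c : Fin 3 → Fin (D + 1) → (Fin n → ℕ) → ℕ}
    (hm : DFun n m) (hc : ∀ j i, DFun n (c j i)) :
    DFun n (fun v => if Squarefree (m v) then BN (m v) (fun j i => c j i v) else 0) := by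
  have hs : Delta0 n (fun v => Squarefree (m v)) := fin_sqf hm
  have hm' : DFun n (fun v => if Squarefree (m v) then m v else 1) :=
    DFun.ite hs hm (DFun.const 1)
  have hg : DFun (n + 1) (fun w => (fun (q : ℕ) (v : Fin n → ℕ) =>
      if q.Prime then BN q (fun j i => c j i v) else 0) (w 0) (fun i => w i.succ)) :=
    bn_prime (p := fun w => w 0) (c := fun j i w => c j i (fun i => w i.succ)) (DFun.proj 0)
      fun j i => (hc j i).weak
  have hsq : ∀ v : Fin n → ℕ, Squarefree (if Squarefree (m v) then m v else 1) := by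
    intro v
    split_ifs with h
    · exact h
    · exact squarefree_one
  have hpr : ∀ v : Fin n → ℕ,
      ∏ q ∈ (if Squarefree (m v) then m v else 1).primeFactors,
        (if q.Prime then BN q (fun j i => c j i v) else 0) =
      BN (if Squarefree (m v) then m v else 1) (fun j i => c j i v) := by
    intro v
    rw [fin_crt (hsq v)]
    refine Finset.prod_congr rfl fun q hq => ?_
    rw [if_pos (Nat.prime_of_mem_primeFactors hq)]
  have h := PtC.dfun_prodPF (n := n) (m := fun v => if Squarefree (m v) then m v else 1)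
    (B := fun v => (if Squarefree (m v) then m v else 1) ^ 2) hg hm' (DFun.powConst hm' 2)
    fun v => by
      rw [hpr v]
      unfold BN
      exact fin_card _ _
  refine dfun_congr (DFun.ite hs h (DFun.const 0)) fun v => ?_
  by_cases h0 : Squarefree (m v)
  · have e := hpr v
    rw [if_pos h0] at e
    rw [if_pos h0, if_pos h0]
    rw [if_pos h0]
    exact e.symm
  · rw [if_neg h0, if_neg h0]

end Pool.Agent.HyD
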