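import Pool.Agent.HyD.Defs
import Pool.Agent.HyE.Fam
import Pool.Agent.ApC.Card

/-!
# Package HyD-Hcl: the numbers of reduced pairs are definable

Complete proofs.

* `vh_def`: as `HyE.vpar_def`; for the last condition bounded quantifiers over numbers `a, b < p` and
  `PRc.prd_delta'`. Shortest: `VH g p c` iff there are `a, b < p` with `VPar g (p, a, b, c)`
  (for even `g` take `a = b = 0`; `ZMod.natCast_zmod_val`), so `vpar_def` with `Delta0.subst`.
* `hcl_def`: `Φ` from `HyE.hfam`, `T v = Nat.card (Φ.G v) = Nat.card (CanS (par g v).f)`; by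
  `ApC.card_nil Φ.toG` (commutative groups are nilpotent) `T` is `DFun (2 g + 6)`. If
  `VPar g (p, a, b, c)` then `par g _` is this parameter and `T (p, a, b, c) = hcl p c`. Graph of the
  function: `VH` and there are `a, b < p` with `VPar g (p, a, b, c)` and `y = T (p, a, b, c)`, or not `VH`
  and `y = 0`. Bound: the reduced pairs have `deg u ≤ g`, so there are at most
  `(p + 1) ^ (2 g + 2)` (injection by the coefficients), so `hcl p c ≤ (p + 1) ^ (2 g + 2)`.
-/

set_option autoImplicit false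

noncomputable section

namespace Pool.Agent.HyD

open Finset Polynomial Pool.Agent.Grz Pool.Agent.HyE Pool.Agent.HyZ
open scoped Classical

/-- the vector of the parameters -/
private def vc {g : ℕ} (p a b : ℕ) (c : Fin (2 * g + 2 + 1) → ℕ) : Fin (2 * g + 6) → ℕ := fun i =>
  if (i : ℕ) = 0 then p else if (i : ℕ) = 1 then a else if (i : ℕ) = 2 then b else
    c ⟨i - 3, by have := i.isLt; omega⟩

private theorem vc_zero {g : ℕ} (p a b : ℕ) (c : Fin (2 * g + 2 + 1) → ℕ) : vc p a b c 0 = p := by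
  simp [vc]

private theorem vc_one {g : ℕ} (p a b : ℕ) (c : Fin (2 * g + 2 + 1) → ℕ) : vc p a b c 1 = a := by
  have h : ((1 : Fin (2 * g + 6)) : ℕ) = 1 := rfl
  unfold vc
  rw [if_neg (by rw [h]; decide), if_pos h]

private theorem vc_two {g : ℕ} (p a b : ℕ) (c : Fin (2 * g + 2 + 1) → ℕ) : vc p a b c 2 = b := by
  have h : ((2 : Fin (2 * g + 6)) : ℕ) = 2 := rfl
  unfold vc
  rw [if_neg (by rw [h]; decide), if_neg (by rw [h]; decide), if_pos h]

private theorem vc_add {g : ℕ} (p a b : ℕ) (c : Fin (2 * g + 2 + 1) → ℕ)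
    (i : Fin (2 * g + 2 + 1)) : vc p a b c ⟨i + 3, by have := i.isLt; omega⟩ = c i := by
  unfold vc
  rw [if_neg (by simp), if_neg (by simp), if_neg (by simp)]
  congr 1

private theorem vpol_eq (g : ℕ) (v : Fin (2 * g + 6) → ℕ) [Fact (v 0).Prime]
    (c : Fin (2 * g + 2 + 1) → ℕ)
    (hc : ∀ i : Fin (2 * g + 2 + 1), v ⟨i + 3, by have := i.isLt; omega⟩ = c i) :
    vpol g v = pz (v 0) c := by
  show (∑ i : Fin (2 * g + 2 + 1), C ((v ⟨(i : ℕ) + 3, by have := i.isLt; omega⟩ : ℕ) :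
    ZMod (v 0)) * X ^ (i : ℕ)) = _
  unfold pz
  exact Finset.sum_congr rfl fun i _ => by rw [hc i]

private theorem vpar_iff (g : ℕ) (v : Fin (2 * g + 6) → ℕ) (p a b : ℕ)
    (c : Fin (2 * g + 2 + 1) → ℕ) (h0 : v 0 = p) (h1 : v 1 = a) (h2 : v 2 = b)
    (hc : ∀ i : Fin (2 * g + 2 + 1), v ⟨i + 3, by have := i.isLt; omega⟩ = c i) :
    VPar g v ↔ ∃ h : p.Prime, haveI := Fact.mk h; Inert (pz p c) ∧
      (pz p c).natDegree = 2 * g + 2 ∧
      (g % 2 = 1 → (b : ZMod p) ^ 2 = (pz p c).eval (a : ZMod p)) := by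
  subst h0 h1 h2
  constructor
  · rintro ⟨h, hI⟩
    have := Fact.mk h
    refine ⟨h, ?_⟩
    rw [← vpol_eq g v c hc]
    exact hI
  · rintro ⟨h, hI⟩
    have := Fact.mk h
    refine ⟨h, ?_⟩
    rw [← vpol_eq g v c hc] at hI
    exact hI

private theorem vh_iff (g p : ℕ) (c : Fin (2 * g + 2 + 1) → ℕ) :
    VH g p c ↔ ∃ a, a ≤ p ∧ ∃ b, b ≤ p ∧ VPar g (vc p a b c) := by
  constructor
  · rintro ⟨h, hI, hd, hp⟩
    have := Fact.mk h
    by_cases hg : g % 2 = 1
    · obtain ⟨a, b, hab⟩ := hp hg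
      refine ⟨a.val, (ZMod.val_lt a).le, b.val, (ZMod.val_lt b).le, ?_⟩
      rw [vpar_iff g _ p a.val b.val c (vc_zero _ _ _ _) (vc_one _ _ _ _) (vc_two _ _ _ _)
        (vc_add _ _ _ _)]
      refine ⟨h, hI, hd, fun _ => ?_⟩
      rw [ZMod.natCast_zmod_val, ZMod.natCast_zmod_val]
      exact hab
    · refine ⟨0, Nat.zero_le _, 0, Nat.zero_le _, ?_⟩
      rw [vpar_iff g _ p 0 0 c (vc_zero _ _ _ _) (vc_one _ _ _ _) (vc_two _ _ _ _)
        (vc_add _ _ _ _)]
      exact ⟨h, hI, hd, fun h' => absurd h' hg⟩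
  · rintro ⟨a, -, b, -, hv⟩
    rw [vpar_iff g _ p a b c (vc_zero _ _ _ _) (vc_one _ _ _ _) (vc_two _ _ _ _)
      (vc_add _ _ _ _)] at hv
    obtain ⟨h, hI, hd, hp⟩ := hv
    exact ⟨h, hI, hd, fun hg => ⟨a, b, hp hg⟩⟩

private theorem vc_dfun {g n : ℕ} {p a b : (Fin n → ℕ) → ℕ}
    {c : Fin (2 * g + 2 + 1) → (Fin n → ℕ) → ℕ} (hp : DFun n p) (ha : DFun n a) (hb : DFun n b)
    (hc : ∀ i, DFun n (c i)) (i : Fin (2 * g + 6)) :
    DFun n (fun u => vc (p u) (a u) (b u) (fun j => c j u) i) := by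
  unfold vc
  split_ifs
  · exact hp
  · exact ha
  · exact hb
  · exact hc _

theorem vh_def (g : ℕ) {n : ℕ} {p : (Fin n → ℕ) → ℕ} {c : Fin (2 * g + 2 + 1) → (Fin n → ℕ) → ℕ}
    (hp : DFun n p) (hc : ∀ i, DFun n (c i)) :
    Delta0 n (fun v => VH g (p v) (fun i => c i v)) := by
  have h1 : Delta0 (n + 1 + 1) (fun w => VPar g (fun i => vc (p (fun j => w j.succ.succ)) (w 1)
      (w 0) (fun k => c k (fun j => w j.succ.succ)) i)) :=
    (vpar_def g).subst fun i => vc_dfun (hp.weak.weak) (DFun.proj 1) (DFun.proj 0)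
      (fun k => (hc k).weak.weak) i
  have h2 : Delta0 (n + 1) (fun w => ∃ b, b ≤ p (fun j => w j.succ) ∧
      VPar g (vc (p (fun j => w j.succ)) (w 0) b (fun k => c k (fun j => w j.succ)))) :=
    Delta0.bexFun (n := n + 1) (b := fun w => p (fun j => w j.succ))
      (P := fun b w => VPar g (vc (p (fun j => w j.succ)) (w 0) b
        (fun k => c k (fun j => w j.succ)))) hp.weak h1
  have h3 : Delta0 n (fun v => ∃ a, a ≤ p v ∧ ∃ b, b ≤ p v ∧
      VPar g (vc (p v) a b (fun k => c k v))) :=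
    Delta0.bexFun (n := n) (b := p) (P := fun a v => ∃ b, b ≤ p v ∧
      VPar g (vc (p v) a b (fun k => c k v))) hp h2
  exact h3.of_iff fun v => vh_iff g (p v) _

private theorem card_par (g : ℕ) (v : Fin (2 * g + 6) → ℕ) (hv : VPar g v)
    (c : Fin (2 * g + 2 + 1) → ℕ)
    (hc : ∀ i : Fin (2 * g + 2 + 1), v ⟨i + 3, by have := i.isLt; omega⟩ = c i) :
    Nat.card (CanS (par g v).f) = hcl (v 0) c := by
  have h1 : par g v = ⟨v, hv⟩ := dif_pos hv
  rw [h1]
  have := Fact.mk hv.choose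
  unfold hcl
  rw [dif_pos hv.choose, ← vpol_eq g v c hc]
  rfl

private theorem card_vc (g p a b : ℕ) (c : Fin (2 * g + 2 + 1) → ℕ) (hv : VPar g (vc p a b c)) :
    Nat.card (CanS (par g (vc p a b c)).f) = hcl p c := by
  rw [card_par g _ hv c (vc_add _ _ _ _), vc_zero]

theorem hcl_def (g : ℕ) {n : ℕ} {p : (Fin n → ℕ) → ℕ}
    {c : Fin (2 * g + 2 + 1) → (Fin n → ℕ) → ℕ} (hp : DFun n p) (hc : ∀ i, DFun n (c i)) :
    DFun n (fun v => if VH g (p v) (fun i => c i v) then hcl (p v) (fun i => c i v) else 0) := by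
  obtain ⟨τ, Φ, hΦ⟩ := hfam g
  have hT : DFun (2 * g + 6) (fun v => Nat.card (Φ.G v)) := by
    refine ApC.card_nil Φ.toG (fun v => ?_) (n := 2 * g + 6) (σ := fun i v => v i)
      (fun i => DFun.proj i)
    let _ : CommGroup (Φ.G v) := { Φ.grp v with mul_comm := (hΦ v).1 }
    exact CommGroup.isNilpotent (G := Φ.G v)
  obtain ⟨q, hq⟩ := hT.bound
  have hT' : ∀ (p a b : ℕ) (c : Fin (2 * g + 2 + 1) → ℕ), VPar g (vc p a b c) →
      Nat.card (Φ.G (vc p a b c)) = hcl p c := fun p a b c h => by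
    rw [(hΦ _).2, card_vc g p a b c h]
  have hB : DFun n (fun u => MvPolynomial.eval (fun i => vc (p u) (p u) (p u)
      (fun j => c j u) i) q) := DFun.evalPoly q (fun i => vc_dfun hp hp hp hc i)
  refine DFun.ofGraph hB (fun u => ?_) ?_
  · split_ifs with h
    · obtain ⟨a, ha, b, hb, hv⟩ := (vh_iff g (p u) _).1 h
      rw [← hT' _ _ _ _ hv]
      refine (hq _).trans (eval_mono q fun i => ?_)
      unfold vc
      split_ifs
      · exact le_refl _
      · exact ha
      · exact hb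
      · exact le_refl _
    · exact Nat.zero_le _
  · have hpw : DFun (n + 1) (fun w : Fin (n + 1) → ℕ => p (fun j => w j.succ)) := hp.weak
    have hcw : ∀ k, DFun (n + 1) (fun w : Fin (n + 1) → ℕ => c k (fun j => w j.succ)) :=
      fun k => (hc k).weak
    have hVH : Delta0 (n + 1) (fun w => VH g (p (fun j => w j.succ))
        (fun k => c k (fun j => w j.succ))) :=
      vh_def g (n := n + 1) (p := fun w => p (fun j => w j.succ))
        (c := fun k w => c k (fun j => w j.succ)) hpw hcw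
    have hvc : ∀ i, DFun (n + 1 + 1 + 1) (fun w => vc (p (fun j => w j.succ.succ.succ)) (w 1)
        (w 0) (fun k => c k (fun j => w j.succ.succ.succ)) i) := fun i =>
      vc_dfun (g := g) (hp.weak.weak.weak) (DFun.proj 1) (DFun.proj 0)
        (fun k => (hc k).weak.weak.weak) i
    have h1 : Delta0 (n + 1 + 1 + 1) (fun w => VPar g (fun i =>
        vc (p (fun j => w j.succ.succ.succ)) (w 1)
        (w 0) (fun k => c k (fun j => w j.succ.succ.succ)) i) ∧
        w (Fin.succ (Fin.succ 0)) = Nat.card (Φ.G (fun i =>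
          vc (p (fun j => w j.succ.succ.succ)) (w 1)
          (w 0) (fun k => c k (fun j => w j.succ.succ.succ)) i))) :=
      ((vpar_def g).subst hvc).and (Delta0.eqFun (DFun.proj _) (hT.comp hvc))
    have h2 : Delta0 (n + 1 + 1) (fun w => ∃ b, b ≤ p (fun j => w j.succ.succ) ∧
        (VPar g (vc (p (fun j => w j.succ.succ)) (w 0) b
          (fun k => c k (fun j => w j.succ.succ))) ∧
        w (Fin.succ 0) = Nat.card (Φ.G (vc (p (fun j => w j.succ.succ)) (w 0) b
          (fun k => c k (fun j => w j.succ.succ)))))) :=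
      Delta0.bexFun (n := n + 1 + 1) (b := fun w => p (fun j => w j.succ.succ))
        (P := fun b w => VPar g (vc (p (fun j => w j.succ.succ)) (w 0) b
          (fun k => c k (fun j => w j.succ.succ))) ∧
        w (Fin.succ 0) = Nat.card (Φ.G (vc (p (fun j => w j.succ.succ)) (w 0) b
          (fun k => c k (fun j => w j.succ.succ))))) hp.weak.weak h1
    have h3 : Delta0 (n + 1) (fun w => ∃ a, a ≤ p (fun j => w j.succ) ∧
        ∃ b, b ≤ p (fun j => w j.succ) ∧
        (VPar g (vc (p (fun j => w j.succ)) a b (fun k => c k (fun j => w j.succ))) ∧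
        w 0 = Nat.card (Φ.G (vc (p (fun j => w j.succ)) a b
          (fun k => c k (fun j => w j.succ)))))) :=
      Delta0.bexFun (n := n + 1) (b := fun w => p (fun j => w j.succ))
        (P := fun a w => ∃ b, b ≤ p (fun j => w j.succ) ∧
        (VPar g (vc (p (fun j => w j.succ)) a b (fun k => c k (fun j => w j.succ))) ∧
        w 0 = Nat.card (Φ.G (vc (p (fun j => w j.succ)) a b
          (fun k => c k (fun j => w j.succ)))))) hpw h2
    refine (h3.or (hVH.not.and (Delta0.eqFun (DFun.proj 0) (DFun.const 0)))).of_iff fun w => ?_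
    by_cases h : VH g (p (fun j => w j.succ)) (fun k => c k (fun j => w j.succ))
    · rw [if_pos h]
      constructor
      · intro hw
        obtain ⟨a, ha, b, hb, hv⟩ := (vh_iff g _ _).1 h
        exact Or.inl ⟨a, ha, b, hb, hv, by rw [hT' _ _ _ _ hv]; exact hw⟩
      · rintro (⟨a, ha, b, hb, hv, hw⟩ | ⟨hn, -⟩)
        · rw [hw, hT' _ _ _ _ hv]
        · exact absurd h hn
    · rw [if_neg h]
      constructor
      · intro hw
        exact Or.inr ⟨h, hw⟩
      · rintro (⟨a, ha, b, hb, hv, hw⟩ | ⟨-, hw⟩)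
        · exact absurd ((vh_iff g _ _).2 ⟨a, ha, b, hb, hv⟩) h
        · exact hw

end Pool.Agent.HyD
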