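import Pool.Agent.HyD.Hcl
import Pool.Agent.HyZ.Mb
import Pool.Agent.PRc.Gcd

/-!
# Package HyD-Mod: the two models

Complete proofs.

* `mb_coeff_prf`: the coefficient `i` of `mb g F x₀` is the coefficient `revAt (2 g + 2) i` of
  `taylor x₀ F` (`coeff_reflect`), and `taylor` is linear: `taylor x₀ (C a * X ^ j) =
  C a * (X + C x₀) ^ j`.
* `sq_def`, `gd_def`: `Squarefree` over `ZMod p` is `IsCoprime F F'`
  (`PerfectField.separable_iff_squarefree`), `PRD.coprime`, `PRD.degLe`, `PRD.eq`; squares: bounded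
  quantifier `∃ y < p, y² = F(x₀)`; all by `PRc.prd_delta'`.
* `h0_def`, `h1_def`: by `inert_mb`, `inert_tw`, `pt_mb` the models satisfy `VH`, with the coefficients
  given by the numbers `PRc.zv (coefficient) p (..)` (`prf_dfun'`), and `pz p (those numbers)` is the
  model (coefficients up to `2 g + 2`, `mb_natDegree`); so the function is
  `if Gd .. then (if VH .. then hcl .. else 0) else 0`: `hcl_def`, `DFun.ite`.
-/

set_option autoImplicit false

noncomputable section

namespace Pool.Agent.HyD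

open Finset Polynomial Pool.Agent.Grz Pool.Agent.HyE Pool.Agent.HyZ Pool.Agent.PRc
open scoped Classical

/-- the polynomial with the coefficients `z` -/
private def pf {k : Type} [Field k] {N : ℕ} (z : Fin N → k) : k[X] :=
  ∑ j : Fin N, C (z j) * X ^ (j : ℕ)

private theorem pf_prp {ι : Type} {N : ℕ} {G : Fin N → FF ι} (hG : ∀ j, PRF (G j)) :
    PRP (fun k _ z => pf (fun j => G j k z)) :=
  PRP.ofFn hG

private theorem taylor_prp {ι : Type} {N : ℕ} {G : Fin N → FF ι} {a : FF ι}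
    (hG : ∀ j, PRF (G j)) (ha : PRF a) :
    PRP (fun k _ z => taylor (a k z) (pf (fun j => G j k z))) := by
  refine (PRP.sum Finset.univ
    (F := fun (j : Fin N) k _ z => C (G j k z) * (X + C (a k z)) ^ (j : ℕ))
    fun j _ => (PRP.C (hG j)).mul ((PRP.X.add (PRP.C ha)).pow j)).congr fun k _ z => ?_
  unfold pf
  rw [map_sum]
  refine Finset.sum_congr rfl fun j _ => ?_
  rw [taylor_mul, taylor_C, taylor_pow, taylor_X]

private theorem mb_prf {ι : Type} (g : ℕ) {N : ℕ} {G : Fin N → FF ι} {a : FF ι}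
    (hG : ∀ j, PRF (G j)) (ha : PRF a) (i : ℕ) :
    PRF (fun k _ z => (mb g (pf (fun j => G j k z)) (a k z)).coeff i) :=
  ((taylor_prp hG ha).2 (revAt (2 * g + 2) i)).congr fun k _ z => by
    unfold mb
    rw [coeff_reflect]

theorem mb_coeff_prf (g i : ℕ) : PRF (ι := Option (Fin (2 * g + 2 + 1))) (fun k _ z =>
    (mb g (∑ j : Fin (2 * g + 2 + 1), C (z (some j)) * X ^ (j : ℕ)) (z none)).coeff i) :=
  mb_prf g (G := fun j _ _ z => z (some j)) (fun j => PRF.var (some j)) (PRF.var none) i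

private theorem pz_pf {p D : ℕ} [Fact p.Prime] (c : Fin (D + 1) → ℕ) :
    pz p c = pf (fun i => (c i : ZMod p)) := rfl

private theorem sqf_iff {p : ℕ} [Fact p.Prime] (F : (ZMod p)[X]) :
    Squarefree F ↔ IsCoprime F (derivative F) :=
  PerfectField.separable_iff_squarefree.symm

/-- a number is a square modulo `p` -/
private theorem isSq_def {n : ℕ} {ι : Type} [Fintype ι] {F : FF ι} (hF : PRF F)
    {p : (Fin n → ℕ) → ℕ} {a : ι → (Fin n → ℕ) → ℕ} (hp : DFun n p) (ha : ∀ i, DFun n (a i)) :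
    Delta0 n (fun v => ∃ h : (p v).Prime, haveI := Fact.mk h;
      IsSquare (F (ZMod (p v)) (fun i => (a i v : ZMod (p v))))) := by
  have h1 : PRD (ι := Option ι) (fun k _ z => F k (fun i => z (some i)) = z none * z none) :=
    PRD.eq (PRF.comp hF fun i => PRF.var (some i)) ((PRF.var none).mul (PRF.var none))
  have h2 := prd_delta' h1 (n := n + 1) (p := fun w => p fun i => w i.succ)
    (a := fun o w => match o with
      | none => w 0
      | some i => a i (fun j => w j.succ)) hp.weak (by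
        rintro (_ | i)
        · exact DFun.proj 0
        · exact (ha i).weak)
  refine (Delta0.bexFun (P := fun y v => ∃ h : (p v).Prime, haveI := Fact.mk h;
    F (ZMod (p v)) (fun i => (a i v : ZMod (p v))) = (y : ZMod (p v)) * (y : ZMod (p v)))
    hp h2).of_iff fun v => ?_
  constructor
  · rintro ⟨h, y, hy⟩
    have := Fact.mk h
    refine ⟨y.val, (ZMod.val_lt y).le, h, ?_⟩
    rw [ZMod.natCast_zmod_val]
    exact hy
  · rintro ⟨y, _, h, hy⟩
    exact ⟨h, _, hy⟩

theorem sq_def (g : ℕ) {n : ℕ} {p : (Fin n → ℕ) → ℕ} {c : Fin (2 * g + 2 + 1) → (Fin n → ℕ) → ℕ}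
    (hp : DFun n p) (hc : ∀ i, DFun n (c i)) :
    Delta0 n (fun v => Sq g (p v) (fun i => c i v)) := by
  have h0 : PRP (ι := Fin (2 * g + 2 + 1)) (fun k _ z => pf z) :=
    pf_prp (G := fun j _ _ z => z j) fun j => PRF.var j
  have h1 := prd_delta' ((PRD.coprime h0 h0.dvt).and (PRD.degLe h0 (2 * g)).not) hp hc
  refine ((Delta0.eqFun hp (DFun.const 2)).not.and h1).of_iff fun v => ?_
  unfold Sq
  constructor
  · rintro ⟨h, h2, h3, h4⟩
    have := Fact.mk h
    exact ⟨h2, h, (sqf_iff _).1 h3, by rw [pz_pf] at h4; omega⟩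
  · rintro ⟨h2, h, h3, h4⟩
    have := Fact.mk h
    exact ⟨h, h2, (sqf_iff _).2 h3, by rw [pz_pf]; omega⟩

theorem gd_def (g : ℕ) {n : ℕ} {p x₀ x₁ : (Fin n → ℕ) → ℕ}
    {c : Fin (2 * g + 2 + 1) → (Fin n → ℕ) → ℕ} (hp : DFun n p) (hx₀ : DFun n x₀)
    (hx₁ : DFun n x₁) (hc : ∀ i, DFun n (c i)) :
    Delta0 n (fun v => Gd g (p v) (x₀ v) (x₁ v) (fun i => c i v)) := by
  have h0 : PRP (ι := Option (Fin (2 * g + 2 + 1))) (fun k _ z => pf fun j => z (some j)) :=
    pf_prp (G := fun j _ _ z => z (some j)) fun j => PRF.var (some j)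
  have h1 : PRF (ι := Option (Fin (2 * g + 2 + 1)))
      (fun k _ z => (pf fun j => z (some j)).eval (z none)) := h0.eval (PRF.var none)
  have ha : ∀ {x : (Fin n → ℕ) → ℕ}, DFun n x → ∀ o : Option (Fin (2 * g + 2 + 1)), DFun n
      ((fun o v => match o with
        | none => x v
        | some i => c i v : Option (Fin (2 * g + 2 + 1)) → (Fin n → ℕ) → ℕ) o) := by
    rintro x hx (_ | i)
    · exact hx
    · exact hc i
  have h2 := isSq_def h1 hp (ha hx₀)
  have h3 := isSq_def h1 hp (ha hx₁)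
  have h4 := prd_delta' (PRD.eq h1 PRF.zero).not hp (ha hx₁)
  refine (((sq_def g hp hc).and h2.not).and (h3.and h4)).of_iff fun v => ?_
  unfold Gd Sq
  constructor
  · rintro ⟨h, h5, h6, h7, h8, h9, h10⟩
    exact ⟨⟨⟨h, h5, h6, h7⟩, fun ⟨_, h11⟩ => h8 h11⟩, ⟨h, h9⟩, h, h10⟩
  · rintro ⟨⟨⟨h, h5, h6, h7⟩, h8⟩, ⟨_, h9⟩, _, h10⟩
    exact ⟨h, h5, h6, h7, fun h11 => h8 ⟨h, h11⟩, h9, h10⟩

/-- the polynomial with the coefficients of a polynomial of degree at most `D` -/
private theorem pz_zv {ι : Type} {D p : ℕ} [hp : Fact p.Prime] {F : ℕ → FF ι} {a : ι → ℕ}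
    {G : (ZMod p)[X]} (hG : G.natDegree ≤ D)
    (h : ∀ i, F i (ZMod p) (fun j => (a j : ZMod p)) = G.coeff i) :
    pz p (fun i : Fin (D + 1) => zv (F i) p a) = G := by
  unfold pz
  rw [Polynomial.as_sum_range_C_mul_X_pow' G (Nat.lt_succ_of_le hG), ← Fin.sum_univ_eq_sum_range
    (fun i => C (G.coeff i) * X ^ i) (D + 1)]
  refine Finset.sum_congr rfl fun i _ => ?_
  have h1 : ((zv (F (i : ℕ)) p a : ℕ) : ZMod p) = G.coeff i := by
    unfold zv
    rw [dif_pos hp.out, ZMod.natCast_zmod_val, h]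
  rw [← h1]

/-- the arguments `x, c` -/
private def ag {n N : ℕ} (x : (Fin n → ℕ) → ℕ) (c : Fin N → (Fin n → ℕ) → ℕ) :
    Option (Fin N) → (Fin n → ℕ) → ℕ
  | none => x
  | some i => c i

private theorem ag_def {n N : ℕ} {x : (Fin n → ℕ) → ℕ} {c : Fin N → (Fin n → ℕ) → ℕ}
    (hx : DFun n x) (hc : ∀ i, DFun n (c i)) : ∀ o, DFun n (ag x c o)
  | none => hx
  | some i => hc i

/-- the arguments `x, y, c` -/
private def ag2 {n N : ℕ} (x y : (Fin n → ℕ) → ℕ) (c : Fin N → (Fin n → ℕ) → ℕ) :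
    Option (Option (Fin N)) → (Fin n → ℕ) → ℕ
  | none => x
  | some o => ag y c o

private theorem ag2_def {n N : ℕ} {x y : (Fin n → ℕ) → ℕ} {c : Fin N → (Fin n → ℕ) → ℕ}
    (hx : DFun n x) (hy : DFun n y) (hc : ∀ i, DFun n (c i)) : ∀ o, DFun n (ag2 x y c o)
  | none => hx
  | some o => ag_def hy hc o

private theorem two_ne {p : ℕ} [hp : Fact p.Prime] (h : p ≠ 2) : (2 : ZMod p) ≠ 0 := by
  intro h2
  have h3 : ((2 : ℕ) : ZMod p) = 0 := by exact_mod_cast h2
  rw [ZMod.natCast_eq_zero_iff] at h3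
  exact h ((Nat.prime_dvd_prime_iff_eq hp.out Nat.prime_two).1 h3)

private theorem pf_natDegree {k : Type} [Field k] {D : ℕ} (z : Fin (D + 1) → k) :
    (pf z).natDegree ≤ D := by
  unfold pf
  refine natDegree_sum_le_of_forall_le _ _ fun i _ => ?_
  exact (natDegree_C_mul_X_pow_le _ _).trans (Nat.lt_succ_iff.1 i.2)

theorem h0_def (g : ℕ) {n : ℕ} {p x₀ x₁ : (Fin n → ℕ) → ℕ}
    {c : Fin (2 * g + 2 + 1) → (Fin n → ℕ) → ℕ} (hp : DFun n p) (hx₀ : DFun n x₀)
    (hx₁ : DFun n x₁) (hc : ∀ i, DFun n (c i)) :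
    DFun n (fun v => if Gd g (p v) (x₀ v) (x₁ v) (fun i => c i v) then
      H0 g (p v) (x₀ v) (fun i => c i v) else 0) := by
  have h1 : ∀ i : ℕ, PRF (ι := Option (Fin (2 * g + 2 + 1))) (fun k _ z =>
      (mb g (pf fun j => z (some j)) (z none)).coeff i) := fun i => mb_coeff_prf g i
  have h2 : ∀ i : Fin (2 * g + 2 + 1), DFun n (fun v => zv
      (fun k _ (z : Option (Fin (2 * g + 2 + 1)) → k) =>
        (mb g (pf fun j => z (some j)) (z none)).coeff (i : ℕ)) (p v)
      (fun o => ag x₀ c o v)) := fun i => prf_dfun' (h1 i) hp (ag_def hx₀ hc)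
  refine cast ?_ (DFun.ite (gd_def g hp hx₀ hx₁ hc) (hcl_def g hp h2) (DFun.const 0))
  refine congrArg (DFun n) (funext fun v => ?_)
  by_cases hG : Gd g (p v) (x₀ v) (x₁ v) (fun i => c i v)
  swap
  · rw [if_neg hG, if_neg hG]
  rw [if_pos hG, if_pos hG]
  obtain ⟨h, h5, h6, h7, h8, h9, h10⟩ := hG
  have := Fact.mk h
  have hd : (pz (p v) (fun i => c i v)).natDegree ≤ 2 * g + 2 := pf_natDegree _
  have hi := inert_mb (two_ne h5) hd h7 h6 h8
  have he : pz (p v) (fun i : Fin (2 * g + 2 + 1) => zv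
      (fun k _ (z : Option (Fin (2 * g + 2 + 1)) → k) =>
        (mb g (pf fun j => z (some j)) (z none)).coeff (i : ℕ)) (p v)
      (fun o => ag x₀ c o v)) = mb g (pz (p v) (fun i => c i v)) (x₀ v : ZMod (p v)) :=
    pz_zv (F := fun i k _ z => (mb g (pf fun j => z (some j)) (z none)).coeff i)
      hi.2.le fun i => rfl
  have hV : VH g (p v) (fun i : Fin (2 * g + 2 + 1) => zv
      (fun k _ (z : Option (Fin (2 * g + 2 + 1)) → k) =>
        (mb g (pf fun j => z (some j)) (z none)).coeff (i : ℕ)) (p v)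
      (fun o => ag x₀ c o v)) := by
    refine ⟨h, ?_⟩
    rw [he]
    exact ⟨hi.1, hi.2, fun _ => (pt_mb hd h8 h9).1⟩
  rw [if_pos hV]
  unfold hcl H0
  rw [dif_pos h, dif_pos h, he]

theorem h1_def (g : ℕ) {n : ℕ} {p x₀ x₁ : (Fin n → ℕ) → ℕ}
    {c : Fin (2 * g + 2 + 1) → (Fin n → ℕ) → ℕ} (hp : DFun n p) (hx₀ : DFun n x₀)
    (hx₁ : DFun n x₁) (hc : ∀ i, DFun n (c i)) :
    DFun n (fun v => if Gd g (p v) (x₀ v) (x₁ v) (fun i => c i v) then
      H1 g (p v) (x₀ v) (x₁ v) (fun i => c i v) else 0) := by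
  have h0 : PRP (ι := Option (Option (Fin (2 * g + 2 + 1))))
      (fun k _ z => pf fun j => z (some (some j))) :=
    pf_prp (G := fun j _ _ z => z (some (some j))) fun j => PRF.var (some (some j))
  have h1 : ∀ i : ℕ, PRF (ι := Option (Option (Fin (2 * g + 2 + 1)))) (fun k _ z =>
      (pf fun j => z (some (some j))).eval (z none) *
      (mb g (pf fun j => z (some (some j))) (z (some none))).coeff i) := fun i =>
    (h0.eval (PRF.var none)).mul (mb_prf g (G := fun j _ _ z => z (some (some j)))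
      (fun j => PRF.var (some (some j))) (PRF.var (some none)) i)
  have h2 : ∀ i : Fin (2 * g + 2 + 1), DFun n (fun v => zv
      (fun k _ (z : Option (Option (Fin (2 * g + 2 + 1))) → k) =>
        (pf fun j => z (some (some j))).eval (z none) *
        (mb g (pf fun j => z (some (some j))) (z (some none))).coeff (i : ℕ)) (p v)
      (fun o => ag2 x₀ x₁ c o v)) := fun i => prf_dfun' (h1 i) hp (ag2_def hx₀ hx₁ hc)
  refine cast ?_ (DFun.ite (gd_def g hp hx₀ hx₁ hc) (hcl_def g hp h2) (DFun.const 0))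
  refine congrArg (DFun n) (funext fun v => ?_)
  by_cases hG : Gd g (p v) (x₀ v) (x₁ v) (fun i => c i v)
  swap
  · rw [if_neg hG, if_neg hG]
  rw [if_pos hG, if_pos hG]
  obtain ⟨h, h5, h6, h7, h8, h9, h10⟩ := hG
  have := Fact.mk h
  have hd : (pz (p v) (fun i => c i v)).natDegree ≤ 2 * g + 2 := pf_natDegree _
  have hi := inert_tw (two_ne h5) hd h7 h6 h8 h9 h10
  have he : pz (p v) (fun i : Fin (2 * g + 2 + 1) => zv
      (fun k _ (z : Option (Option (Fin (2 * g + 2 + 1))) → k) =>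
        (pf fun j => z (some (some j))).eval (z none) *
        (mb g (pf fun j => z (some (some j))) (z (some none))).coeff (i : ℕ)) (p v)
      (fun o => ag2 x₀ x₁ c o v)) =
      C ((pz (p v) (fun i => c i v)).eval (x₀ v : ZMod (p v))) *
        mb g (pz (p v) (fun i => c i v)) (x₁ v : ZMod (p v)) :=
    pz_zv (F := fun i k _ z => (pf fun j => z (some (some j))).eval (z none) *
        (mb g (pf fun j => z (some (some j))) (z (some none))).coeff i)
      hi.2.le fun i => by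
        rw [coeff_C_mul]
        rfl
  have hV : VH g (p v) (fun i : Fin (2 * g + 2 + 1) => zv
      (fun k _ (z : Option (Option (Fin (2 * g + 2 + 1))) → k) =>
        (pf fun j => z (some (some j))).eval (z none) *
        (mb g (pf fun j => z (some (some j))) (z (some none))).coeff (i : ℕ)) (p v)
      (fun o => ag2 x₀ x₁ c o v)) := by
    refine ⟨h, ?_⟩
    rw [he]
    exact ⟨hi.1, hi.2, fun _ => (pt_mb hd h8 h9).2⟩
  rw [if_pos hV]
  unfold hcl H1
  rw [dif_pos h, dif_pos h, he]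

end Pool.Agent.HyD
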