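import Pool.Agent.HyD.Defs

/-!
# Package HyD-Small: small moduli

Complete proofs. As `small_def` and `qnk_Final` in PtC (PtC/Small.lean, PtC/Final.lean): for each fixed
modulus `m` the function is a finite sum of characteristic functions; for `m ≤ N` finitely many cases
(`DFun.ite` with `Delta0.eqFun`, induction on `N`).
-/

set_option autoImplicit false

noncomputable section

namespace Pool.Agent.HyD

open Finset Polynomial Pool.Agent.Grz Pool.Agent.GAvg Pool.Agent.PTr Pool.Agent.MTr
  Pool.Agent.LPC Pool.Agent.ECD Pool.Agent.PtC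
open scoped Classical

private theorem sum_Small {n : ℕ} {ι : Type*} (S : Finset ι) (f : ι → (Fin n → ℕ) → ℕ)
    (hf : ∀ i, DFun n (f i)) : DFun n (fun v => ∑ i ∈ S, f i v) := by
  classical
  induction S using Finset.induction_on with
  | empty => exact dfun_congr (DFun.const 0) (fun v => Finset.sum_empty)
  | insert i S hi ih =>
    exact dfun_congr ((hf i).add ih) (fun v => Finset.sum_insert hi)

theorem pv_def {D n : ℕ} {c : Fin (D + 1) → (Fin n → ℕ) → ℕ} {x : (Fin n → ℕ) → ℕ}
    (hc : ∀ i, DFun n (c i)) (hx : DFun n x) : DFun n (fun v => pv (fun i => c i v) (x v)) := by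
  unfold pv
  exact sum_Small Finset.univ (fun i v => c i v * x v ^ (i : ℕ))
    (fun i => (hc i).mul (DFun.powConst hx i))

private theorem mod_Small {n : ℕ} (k : ℕ) {a b : (Fin n → ℕ) → ℕ} (ha : DFun n a)
    (hb : DFun n b) : Delta0 n (fun v => a v ≡ b v [MOD k]) :=
  Delta0.eqFun (DFun.modAny ha (DFun.const k)) (DFun.modAny hb (DFun.const k))

private theorem hnk_Small (k : ℕ) {D n : ℕ} {c : Fin (D + 1) → (Fin n → ℕ) → ℕ}
    (hc : ∀ i, DFun n (c i)) : DFun n (fun v => HN k (fun i => c i v)) := by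
  have h := small_def (n := n) k
    (R := fun x y v => y ^ 2 ≡ pv (fun i => c i v) x [MOD k]) fun x y =>
      mod_Small k (DFun.const (y ^ 2)) (pv_def hc (DFun.const x))
  refine dfun_congr h fun v => ?_
  unfold HN
  congr 1
  ext z
  simp only [Finset.mem_filter]

private theorem bnk_Small (k : ℕ) {D n : ℕ} {c : Fin 3 → Fin (D + 1) → (Fin n → ℕ) → ℕ}
    (hc : ∀ j i, DFun n (c j i)) : DFun n (fun v => BN k (fun j i => c j i v)) := by
  have h := small_def (n := n) k
    (R := fun x y v => k ∣ ∑ j, ∑ i, c j i v * x ^ (i : ℕ) * y ^ (j : ℕ)) fun x y =>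
      delta_dvd (DFun.const k)
        (sum_Small Finset.univ (fun j v => ∑ i, c j i v * x ^ (i : ℕ) * y ^ (j : ℕ))
          (fun j => sum_Small Finset.univ (fun i v => c j i v * x ^ (i : ℕ) * y ^ (j : ℕ))
            (fun i => ((hc j i).mul (DFun.const (x ^ (i : ℕ)))).mul
              (DFun.const (y ^ (j : ℕ))))))
  refine dfun_congr h fun v => ?_
  unfold BN
  congr 1
  ext z
  simp only [Finset.mem_filter]

private theorem step_Small (N : ℕ) {n : ℕ} {p : (Fin n → ℕ) → ℕ} {F : ℕ → (Fin n → ℕ) → ℕ}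
    (hp : DFun n p) (hF : ∀ k, DFun n (F k)) :
    DFun n (fun v => if p v ≤ N then F (p v) v else 0) := by
  induction N with
  | zero =>
    refine dfun_congr (DFun.ite (Delta0.leFun hp (DFun.const 0)) (hF 0)
      (DFun.const 0)) fun v => ?_
    by_cases h : p v ≤ 0
    · rw [if_pos h, if_pos h, Nat.le_zero.1 h]
    · rw [if_neg h, if_neg h]
  | succ N ih =>
    refine dfun_congr (DFun.ite (Delta0.eqFun hp (DFun.const (N + 1)))
      (hF (N + 1)) ih) fun v => ?_
    by_cases h : p v = N + 1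
    · rw [if_pos h, if_pos h.le, h]
    · rw [if_neg h]
      by_cases h2 : p v ≤ N
      · rw [if_pos h2, if_pos (by omega)]
      · rw [if_neg h2, if_neg (by omega)]

theorem hn_small (N : ℕ) {D n : ℕ} {p : (Fin n → ℕ) → ℕ} {c : Fin (D + 1) → (Fin n → ℕ) → ℕ}
    (hp : DFun n p) (hc : ∀ i, DFun n (c i)) :
    DFun n (fun v => if p v ≤ N then HN (p v) (fun i => c i v) else 0) :=
  step_Small N (F := fun k v => HN k (fun i => c i v)) hp (fun k => hnk_Small k hc)

theorem bn_small (N : ℕ) {D n : ℕ} {p : (Fin n → ℕ) → ℕ}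
    {c : Fin 3 → Fin (D + 1) → (Fin n → ℕ) → ℕ} (hp : DFun n p) (hc : ∀ j i, DFun n (c j i)) :
    DFun n (fun v => if p v ≤ N then BN (p v) (fun j i => c j i v) else 0) :=
  step_Small N (F := fun k v => BN k (fun j i => c j i v)) hp (fun k => bnk_Small k hc)

end Pool.Agent.HyD
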