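import Pool.Agent.HyD.Mod
import Pool.Agent.HyD.Small
import Pool.Agent.HyZ.Near

/-!
# Package HyD-One: squarefree polynomials

Complete proofs.

* `hn_qs`: `HN p c` is the number of the `(x, y)` in `(ZMod p)²` with `y² = F(x)` (`ZMod.natCast_eq_natCast_iff`,
  bijection `range p ≃ ZMod p`), `HyZ.pts_sum`.
* `sj_one`: `GaloisField p 1` is `ZMod p` (`GaloisField.equivZmodP`, or: the algebra map is bijective by
  the number of the elements).
* `hn_sq`: `p₀` from `near g`; if `p ≤ max p₀ 2`: `hn_small`. Otherwise, with `F = pz p c`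
  (`natDegree ≤ 2 g + 2`), three cases, each definable (bounded quantifiers over `x < p`, `pv_def`):
  (1) no `F(x)` is a nonzero square: `HN p c` is the number of the zeros of `F`, at most `2 g + 2`
  (`PtC.cnt_small`); (2) no `F(x)` is a nonsquare: `HN p c + (number of zeros) = 2 p`;
  (3) otherwise there are `x₀, x₁ < p` with `Gd g p x₀ x₁ c`. With `C = 1 + p^(g-1)` (`C = 1` if `g = 1`),
  `χ = qc (F.coeff (2g+2)) ∈ {0, 1, -1}`, and `N = HN p c = p + s_1 - χ`: `N` is the only number with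
  `|h₀ - h₁ - 2 C (N - p + χ)| < C`; write it without subtraction, with definable natural numbers
  (`h0_def`, `h1_def`): graph `∃ x₀, x₁ < p, Gd .. ∧ ...`. Bound: `HN ≤ p²`.
-/

set_option autoImplicit false

noncomputable section

namespace Pool.Agent.HyD

open Finset Polynomial Pool.Agent.Grz Pool.Agent.HyE Pool.Agent.HyZ
open scoped Classical

private theorem cast_inj_One {p s t : ℕ} (hs : s < p) (ht : t < p)
    (h : (s : ZMod p) = (t : ZMod p)) : s = t := by
  rw [ZMod.natCast_eq_natCast_iff'] at h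
  rwa [Nat.mod_eq_of_lt hs, Nat.mod_eq_of_lt ht] at h

private theorem sum_One {p : ℕ} [NeZero p] {M : Type*} [AddCommMonoid M] (f : ZMod p → M) :
    ∑ t ∈ range p, f (t : ZMod p) = ∑ t : ZMod p, f t := by
  refine Finset.sum_bij (fun t _ => (t : ZMod p)) (fun t _ => mem_univ _) ?_ ?_ ?_
  · intro s hs t ht h
    exact cast_inj_One (mem_range.1 hs) (mem_range.1 ht) h
  · intro b _
    exact ⟨b.val, mem_range.2 (ZMod.val_lt b), ZMod.natCast_zmod_val b⟩
  · intro t _
    rfl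

private theorem pv_cast_One {p D : ℕ} (c : Fin (D + 1) → ℕ) (x : ℕ) :
    ((pv c x : ℕ) : ZMod p) = (pz p c).eval (x : ZMod p) := by
  unfold pv pz
  rw [eval_finsetSum]
  push_cast
  refine Finset.sum_congr rfl fun i _ => ?_
  rw [eval_mul, eval_C, eval_pow, eval_X]

private theorem pz_deg_One (p : ℕ) {D : ℕ} (c : Fin (D + 1) → ℕ) : (pz p c).natDegree ≤ D := by
  unfold pz
  refine natDegree_sum_le_of_forall_le _ _ fun i _ => ?_
  refine (natDegree_C_mul_X_pow_le _ _).trans ?_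
  have := i.2
  omega

private theorem pz_coeff_One (p : ℕ) {D : ℕ} (c : Fin (D + 1) → ℕ) (i : Fin (D + 1)) :
    (pz p c).coeff (i : ℕ) = (c i : ZMod p) := by
  unfold pz
  rw [finsetSum_coeff, Finset.sum_eq_single i]
  · rw [coeff_C_mul, coeff_X_pow, if_pos rfl, mul_one]
  · intro j _ hj
    rw [coeff_C_mul, coeff_X_pow, if_neg, mul_zero]
    intro h
    exact hj (Fin.ext h.symm)
  · intro h
    exact absurd (mem_univ i) h

theorem hn_qs {p : ℕ} [Fact p.Prime] (hp : p ≠ 2) {D : ℕ} (c : Fin (D + 1) → ℕ) :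
    (HN p c : ℤ) = p + qs (pz p c) := by
  have h2 : (2 : ZMod p) ≠ 0 := by
    intro h
    have h1 : ((2 : ℕ) : ZMod p) = 0 := by exact_mod_cast h
    rw [ZMod.natCast_eq_zero_iff] at h1
    exact hp ((Nat.prime_dvd_prime_iff_eq Fact.out Nat.prime_two).1 h1)
  have h := pts_sum (K := ZMod p) h2 (pz p c)
  rw [Nat.card_zmod] at h
  rw [← h]
  congr 1
  rw [Nat.card_eq_fintype_card, Fintype.card_subtype]
  unfold HN
  rw [card_filter, card_filter, sum_product, Fintype.sum_prod_type]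
  rw [← sum_One (fun x : ZMod p => ∑ y : ZMod p, if y ^ 2 = (pz p c).eval x then 1 else 0)]
  refine Finset.sum_congr rfl fun x _ => ?_
  rw [← sum_One (fun y : ZMod p => if y ^ 2 = (pz p c).eval (x : ZMod p) then 1 else 0)]
  refine Finset.sum_congr rfl fun y _ => ?_
  have e : (y ^ 2 ≡ pv c x [MOD p]) ↔ (y : ZMod p) ^ 2 = (pz p c).eval (x : ZMod p) := by
    rw [← ZMod.natCast_eq_natCast_iff, pv_cast_One, Nat.cast_pow]
  simp only [e]

private theorem qc_equiv_One {K L : Type} [Field K] [Field L] (e : K ≃+* L) (a : K) :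
    qc (e a) = qc a := by
  unfold qc
  have h1 : e a = 0 ↔ a = 0 := by simp
  have h2 : IsSquare (e a) ↔ IsSquare a := by
    constructor
    · intro h
      have h3 := h.map e.symm
      rwa [RingEquiv.symm_apply_apply] at h3
    · intro h
      exact h.map e
  simp only [h1, h2]

private theorem qs_equiv_One {K L : Type} [Field K] [Field L] (e : K ≃+* L) (F : K[X]) :
    qs (F.map (e : K →+* L)) = qs F := by
  unfold qs
  rw [← finsum_comp_equiv e.toEquiv]
  refine finsum_congr fun x => ?_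
  have h1 : (F.map (e : K →+* L)).eval (e.toEquiv x) = e (F.eval x) := by
    rw [eval_map]
    exact eval₂_at_apply (e : K →+* L) x
  rw [h1, qc_equiv_One]

theorem sj_one {p : ℕ} [Fact p.Prime] (g : ℕ) (F : (ZMod p)[X]) :
    sj p g F 1 = qs F + qc (F.coeff (2 * g + 2)) := by
  have e : algebraMap (ZMod p) (GaloisField p 1) =
      (((GaloisField.equivZmodP p).symm.toRingEquiv : ZMod p ≃+* GaloisField p 1) :
        ZMod p →+* GaloisField p 1) := Subsingleton.elim _ _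
  unfold sj
  rw [e, qs_equiv_One]
  congr 1
  exact qc_equiv_One _ _

private def SqP (p a : ℕ) : Prop := ∃ y, y ≤ p ∧ y ^ 2 ≡ a [MOD p]

private def enc (p a : ℕ) : ℕ := if p ∣ a then 1 else if SqP p a then 2 else 0

private def ccn (g p : ℕ) : ℕ := if g - 1 = 0 then 1 else 1 + p ^ (g - 1)

private def Ineq (C h₀ h₁ N p e : ℕ) : Prop :=
  h₀ + 2 * C * (p + 1) < h₁ + 2 * C * (N + e) + C ∧
    h₁ + 2 * C * (N + e) < h₀ + 2 * C * (p + 1) + C

private theorem sqP_iff {p : ℕ} [Fact p.Prime] (a : ℕ) : SqP p a ↔ IsSquare (a : ZMod p) := by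
  constructor
  · rintro ⟨y, _, hy⟩
    refine ⟨(y : ZMod p), ?_⟩
    rw [← ZMod.natCast_eq_natCast_iff] at hy
    rw [← hy, Nat.cast_pow, sq]
  · rintro ⟨r, hr⟩
    refine ⟨r.val, (ZMod.val_lt r).le, ?_⟩
    rw [← ZMod.natCast_eq_natCast_iff, Nat.cast_pow, ZMod.natCast_zmod_val, hr, sq]

private theorem enc_eq {p : ℕ} [Fact p.Prime] (a : ℕ) : (enc p a : ℤ) = qc (a : ZMod p) + 1 := by
  unfold enc qc
  have h1 : p ∣ a ↔ (a : ZMod p) = 0 := (ZMod.natCast_eq_zero_iff a p).symm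
  simp only [h1, sqP_iff]
  split_ifs <;> simp

private theorem ccn_eq (g p : ℕ) : ((ccn g p : ℕ) : ℚ) = Cc p (g - 1) := by
  unfold ccn Cc
  split_ifs <;> simp

private theorem ccn_pos (g p : ℕ) : 1 ≤ ccn g p := by
  unfold ccn
  split_ifs <;> omega

private theorem key_One {g : ℕ} {p₀ : ℕ}
    (hn : ∀ (p : ℕ) [Fact p.Prime], p₀ < p →
      ∀ (F : (ZMod p)[X]), F.natDegree ≤ 2 * g + 2 → 2 * g + 1 ≤ F.natDegree → Squarefree F →
      ∀ x₀ x₁ : ZMod p, ¬ IsSquare (F.eval x₀) → IsSquare (F.eval x₁) → F.eval x₁ ≠ 0 →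
        |(Nat.card (CanS (mb g F x₀)) : ℚ) - Nat.card (CanS (C (F.eval x₀) * mb g F x₁)) -
          2 * Cc p (g - 1) * sj p g F 1| < Cc p (g - 1))
    {p x₀ x₁ N : ℕ} {c : Fin (2 * g + 2 + 1) → ℕ} (hp : p₀ < p) (h : Gd g p x₀ x₁ c) :
    Ineq (ccn g p) (H0 g p x₀ c) (H1 g p x₀ x₁ c) N p (enc p (c (Fin.last _))) ↔
      N = HN p c := by
  obtain ⟨hpr, hp2, hsq, hdeg, hx0, hx1, hx1'⟩ := h
  have hF : Fact p.Prime := ⟨hpr⟩
  have hN := hn p hp (pz p c) (pz_deg_One p c) hdeg hsq x₀ x₁ hx0 hx1 hx1'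
  have e0 : H0 g p x₀ c = Nat.card (CanS (mb g (pz p c) (x₀ : ZMod p))) := by
    unfold H0
    rw [dif_pos hpr]
  have e1 : H1 g p x₀ x₁ c = Nat.card (CanS (C ((pz p c).eval (x₀ : ZMod p)) *
      mb g (pz p c) (x₁ : ZMod p))) := by
    unfold H1
    rw [dif_pos hpr]
  have e2 : (sj p g (pz p c) 1 : ℤ) = (HN p c : ℤ) - p + (enc p (c (Fin.last _)) : ℤ) - 1 := by
    rw [sj_one, hn_qs hp2, enc_eq]
    have e3 : (pz p c).coeff (2 * g + 2) = (c (Fin.last _) : ZMod p) :=
      pz_coeff_One p c (Fin.last _)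
    rw [e3]
    ring
  rw [← e0, ← e1, e2, ← ccn_eq] at hN
  have hN' : |(H0 g p x₀ c : ℤ) - (H1 g p x₀ x₁ c : ℤ) -
      2 * (ccn g p : ℤ) * ((HN p c : ℤ) - p + (enc p (c (Fin.last _)) : ℤ) - 1)| <
      (ccn g p : ℤ) := by exact_mod_cast hN
  generalize H0 g p x₀ c = h0 at hN' ⊢
  generalize H1 g p x₀ x₁ c = h1 at hN' ⊢
  generalize enc p (c (Fin.last _)) = e at hN' ⊢
  generalize HN p c = M at hN' ⊢
  have hC := ccn_pos g p
  generalize ccn g p = C at hN' hC ⊢
  rw [abs_lt] at hN'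
  obtain ⟨a1, a2⟩ := hN'
  have hC' : (1 : ℤ) ≤ C := by exact_mod_cast hC
  constructor
  · rintro ⟨b1, b2⟩
    have b1' : (h0 : ℤ) + 2 * C * (p + 1) < h1 + 2 * C * (N + e) + C := by exact_mod_cast b1
    have b2' : (h1 : ℤ) + 2 * C * (N + e) < h0 + 2 * C * (p + 1) + C := by exact_mod_cast b2
    by_contra hne
    rcases Nat.lt_or_gt_of_ne hne with hlt | hlt
    · have c1 : (N : ℤ) + 1 ≤ M := by exact_mod_cast hlt
      have c2 := mul_le_mul_of_nonneg_left c1 (by linarith : (0 : ℤ) ≤ C)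
      linarith
    · have c1 : (M : ℤ) + 1 ≤ N := by exact_mod_cast hlt
      have c2 := mul_le_mul_of_nonneg_left c1 (by linarith : (0 : ℤ) ≤ C)
      linarith
  · rintro rfl
    constructor
    · have : (h0 : ℤ) + 2 * C * (p + 1) < h1 + 2 * C * (N + e) + C := by linarith
      exact_mod_cast this
    · have : (h1 : ℤ) + 2 * C * (N + e) < h0 + 2 * C * (p + 1) + C := by linarith
      exact_mod_cast this

private theorem qs_range_One {p : ℕ} [Fact p.Prime] {D : ℕ} (c : Fin (D + 1) → ℕ) :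
    qs (pz p c) = ∑ x ∈ range p, qc ((pv c x : ℕ) : ZMod p) := by
  unfold qs
  rw [finsum_eq_sum_of_fintype, ← sum_One]
  refine Finset.sum_congr rfl fun x _ => ?_
  rw [pv_cast_One]

private theorem caseA_One {p : ℕ} [Fact p.Prime] (hp : p ≠ 2) {D : ℕ} (c : Fin (D + 1) → ℕ)
    (h : ∀ x, x ≤ p → (p ∣ pv c x ∨ ¬ SqP p (pv c x))) :
    HN p c = #{x ∈ range p | p ∣ pv c x} := by
  have h1 := hn_qs hp c
  rw [qs_range_One] at h1
  have h2 : ∀ x ∈ range p, qc ((pv c x : ℕ) : ZMod p) = -(if ¬ p ∣ pv c x then 1 else 0) := by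
    intro x hx
    unfold qc
    have e1 : ((pv c x : ℕ) : ZMod p) = 0 ↔ p ∣ pv c x := ZMod.natCast_eq_zero_iff _ _
    rcases h x (mem_range.1 hx).le with h3 | h3
    · rw [if_pos (e1.2 h3), if_neg (not_not.2 h3)]
      rfl
    · by_cases h4 : p ∣ pv c x
      · rw [if_pos (e1.2 h4), if_neg (not_not.2 h4)]
        rfl
      · rw [if_neg (fun h5 => h4 (e1.1 h5)), if_neg (fun h5 => h3 ((sqP_iff _).2 h5)),
          if_pos h4]
  rw [Finset.sum_congr rfl h2, Finset.sum_neg_distrib, ← Finset.natCast_card_filter] at h1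
  have h3 := Finset.card_filter_add_card_filter_not (s := range p) (fun x => p ∣ pv c x)
  rw [card_range] at h3
  have h4 : ((#{x ∈ range p | p ∣ pv c x} : ℕ) : ℤ) +
      (#{x ∈ range p | ¬ p ∣ pv c x} : ℕ) = p := by exact_mod_cast h3
  have h5 : (HN p c : ℤ) = (#{x ∈ range p | p ∣ pv c x} : ℕ) := by linarith
  exact_mod_cast h5

private theorem caseB_One {p : ℕ} [Fact p.Prime] (hp : p ≠ 2) {D : ℕ} (c : Fin (D + 1) → ℕ)
    (h : ∀ x, x ≤ p → SqP p (pv c x)) :
    HN p c = 2 * p - #{x ∈ range p | p ∣ pv c x} := by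
  have h1 := hn_qs hp c
  rw [qs_range_One] at h1
  have h2 : ∀ x ∈ range p, qc ((pv c x : ℕ) : ZMod p) = (if ¬ p ∣ pv c x then 1 else 0) := by
    intro x hx
    unfold qc
    have e1 : ((pv c x : ℕ) : ZMod p) = 0 ↔ p ∣ pv c x := ZMod.natCast_eq_zero_iff _ _
    have h3 := h x (mem_range.1 hx).le
    by_cases h4 : p ∣ pv c x
    · rw [if_pos (e1.2 h4), if_neg (not_not.2 h4)]
    · rw [if_neg (fun h5 => h4 (e1.1 h5)), if_pos ((sqP_iff _).1 h3), if_pos h4]
  rw [Finset.sum_congr rfl h2, ← Finset.natCast_card_filter] at h1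
  have h3 := Finset.card_filter_add_card_filter_not (s := range p) (fun x => p ∣ pv c x)
  rw [card_range] at h3
  have h4 : HN p c = p + #{x ∈ range p | ¬ p ∣ pv c x} := by exact_mod_cast h1
  omega

private theorem zeros_One {p : ℕ} [Fact p.Prime] {D : ℕ} (c : Fin (D + 1) → ℕ)
    (h : pz p c ≠ 0) : #{x ∈ range p | p ∣ pv c x} ≤ D := by
  have h1 : #{x ∈ range p | p ∣ pv c x} ≤ #(pz p c).roots.toFinset := by
    apply Finset.card_le_card_of_injOn (fun t : ℕ => (t : ZMod p))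
    · intro t ht
      have ht' := (Finset.mem_filter.1 (Finset.mem_coe.1 ht)).2
      rw [Finset.mem_coe, Multiset.mem_toFinset, Polynomial.mem_roots h, IsRoot.def,
        ← pv_cast_One]
      exact (ZMod.natCast_eq_zero_iff _ _).2 ht'
    · intro s hs t ht hst
      have hs' := (Finset.mem_filter.1 (Finset.mem_coe.1 hs)).1
      have ht' := (Finset.mem_filter.1 (Finset.mem_coe.1 ht)).1
      exact cast_inj_One (mem_range.1 hs') (mem_range.1 ht') hst
  exact (h1.trans (Multiset.toFinset_card_le _)).trans ((card_roots' _).trans (pz_deg_One p c))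

private theorem sqP_def {n : ℕ} {p a : (Fin n → ℕ) → ℕ} (hp : DFun n p) (ha : DFun n a) :
    Delta0 n (fun v => SqP (p v) (a v)) := by
  refine Delta0.bexFun (b := p) (P := fun y v => y ^ 2 ≡ a v [MOD p v]) hp ?_
  exact Delta0.eqFun (PTr.DFun.modAny (PTr.DFun.powConst (DFun.proj 0) 2) hp.weak)
    (PTr.DFun.modAny ha.weak hp.weak)

private theorem enc_def {n : ℕ} {p a : (Fin n → ℕ) → ℕ} (hp : DFun n p) (ha : DFun n a) :
    DFun n (fun v => enc (p v) (a v)) := by
  unfold enc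
  exact DFun.ite (ECD.delta_dvd hp ha) (DFun.const 1)
    (DFun.ite (sqP_def hp ha) (DFun.const 2) (DFun.const 0))

private theorem ccn_def (g : ℕ) {n : ℕ} {p : (Fin n → ℕ) → ℕ} (hp : DFun n p) :
    DFun n (fun v => ccn g (p v)) := by
  unfold ccn
  by_cases h : g - 1 = 0
  · simp only [h, if_true]
    exact DFun.const 1
  · simp only [h, if_false]
    exact (DFun.const 1).add (PTr.DFun.powConst hp _)

private theorem ineq_def {n : ℕ} {C h₀ h₁ N p e : (Fin n → ℕ) → ℕ} (hC : DFun n C)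
    (h0 : DFun n h₀) (h1 : DFun n h₁) (hN : DFun n N) (hp : DFun n p) (he : DFun n e) :
    Delta0 n (fun v => Ineq (C v) (h₀ v) (h₁ v) (N v) (p v) (e v)) := by
  have a := h0.add (((DFun.const 2).mul hC).mul (hp.add (DFun.const 1)))
  have b := h1.add (((DFun.const 2).mul hC).mul (hN.add he))
  exact (Delta0.ltFun a (b.add hC)).and (Delta0.ltFun b (a.add hC))

private theorem third_One {g p₀ K : ℕ}
    (hn : ∀ (p : ℕ) [Fact p.Prime], p₀ < p →
      ∀ (F : (ZMod p)[X]), F.natDegree ≤ 2 * g + 2 → 2 * g + 1 ≤ F.natDegree → Squarefree F →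
      ∀ x₀ x₁ : ZMod p, ¬ IsSquare (F.eval x₀) → IsSquare (F.eval x₁) → F.eval x₁ ≠ 0 →
        |(Nat.card (CanS (mb g F x₀)) : ℚ) - Nat.card (CanS (C (F.eval x₀) * mb g F x₁)) -
          2 * Cc p (g - 1) * sj p g F 1| < Cc p (g - 1)) (hK : p₀ ≤ K) {n : ℕ}
    {p : (Fin n → ℕ) → ℕ} {c : Fin (2 * g + 2 + 1) → (Fin n → ℕ) → ℕ} (hp : DFun n p)
    (hc : ∀ i, DFun n (c i)) :
    DFun n (fun v => if (K < p v ∧ ∃ x₀, x₀ ≤ p v ∧ ∃ x₁, x₁ ≤ p v ∧
      Gd g (p v) x₀ x₁ (fun i => c i v)) then HN (p v) (fun i => c i v) else 0) := by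
  have hp3 : DFun (n + 1 + 1 + 1) (fun w => p (fun i => w i.succ.succ.succ)) := hp.weak.weak.weak
  have hc3 : ∀ i, DFun (n + 1 + 1 + 1) (fun w => c i (fun j => w j.succ.succ.succ)) :=
    fun i => (hc i).weak.weak.weak
  have hp2 : DFun (n + 1 + 1) (fun w => p (fun i => w i.succ.succ)) := hp.weak.weak
  have hc2 : ∀ i, DFun (n + 1 + 1) (fun w => c i (fun j => w j.succ.succ)) :=
    fun i => (hc i).weak.weak
  have g3 := gd_def g (x₀ := fun w : Fin (n + 1 + 1 + 1) → ℕ => w (Fin.succ 0))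
    (x₁ := fun w => w 0) hp3 (DFun.proj _) (DFun.proj _) hc3
  have k0 := h0_def g (x₀ := fun w : Fin (n + 1 + 1 + 1) → ℕ => w (Fin.succ 0))
    (x₁ := fun w => w 0) hp3 (DFun.proj _) (DFun.proj _) hc3
  have k1 := h1_def g (x₀ := fun w : Fin (n + 1 + 1 + 1) → ℕ => w (Fin.succ 0))
    (x₁ := fun w => w 0) hp3 (DFun.proj _) (DFun.proj _) hc3
  have q3 := ineq_def (ccn_def g hp3) k0 k1 (DFun.proj (n := n + 1 + 1 + 1)
    (Fin.succ (Fin.succ 0))) hp3 (enc_def hp3 (hc3 (Fin.last _)))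
  have E1 : Delta0 (n + 1) (fun w => ∃ x₀, x₀ ≤ p (fun i => w i.succ) ∧
      ∃ x₁, x₁ ≤ p (fun i => w i.succ) ∧
        (Gd g (p (fun i => w i.succ)) x₀ x₁ (fun i => c i (fun j => w j.succ)) ∧
        Ineq (ccn g (p (fun i => w i.succ)))
          (if Gd g (p (fun i => w i.succ)) x₀ x₁ (fun i => c i (fun j => w j.succ)) then
            H0 g (p (fun i => w i.succ)) x₀ (fun i => c i (fun j => w j.succ)) else 0)
          (if Gd g (p (fun i => w i.succ)) x₀ x₁ (fun i => c i (fun j => w j.succ)) then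
            H1 g (p (fun i => w i.succ)) x₀ x₁ (fun i => c i (fun j => w j.succ)) else 0)
          (w 0) (p (fun i => w i.succ))
          (enc (p (fun i => w i.succ)) (c (Fin.last _) (fun j => w j.succ))))) := by
    refine Delta0.bexFun (b := fun w : Fin (n + 1) → ℕ => p (fun i => w i.succ))
      (P := fun x₀ w => ∃ x₁, x₁ ≤ p (fun i => w i.succ) ∧
        (Gd g (p (fun i => w i.succ)) x₀ x₁ (fun i => c i (fun j => w j.succ)) ∧
        Ineq (ccn g (p (fun i => w i.succ)))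
          (if Gd g (p (fun i => w i.succ)) x₀ x₁ (fun i => c i (fun j => w j.succ)) then
            H0 g (p (fun i => w i.succ)) x₀ (fun i => c i (fun j => w j.succ)) else 0)
          (if Gd g (p (fun i => w i.succ)) x₀ x₁ (fun i => c i (fun j => w j.succ)) then
            H1 g (p (fun i => w i.succ)) x₀ x₁ (fun i => c i (fun j => w j.succ)) else 0)
          (w 0) (p (fun i => w i.succ))
          (enc (p (fun i => w i.succ)) (c (Fin.last _) (fun j => w j.succ))))) hp.weak ?_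
    refine Delta0.bexFun (b := fun w : Fin (n + 1 + 1) → ℕ => p (fun i => w i.succ.succ))
      (P := fun x₁ w => (Gd g (p (fun i => w i.succ.succ)) (w 0) x₁
          (fun i => c i (fun j => w j.succ.succ)) ∧
        Ineq (ccn g (p (fun i => w i.succ.succ)))
          (if Gd g (p (fun i => w i.succ.succ)) (w 0) x₁ (fun i => c i (fun j => w j.succ.succ))
            then H0 g (p (fun i => w i.succ.succ)) (w 0) (fun i => c i (fun j => w j.succ.succ))
            else 0)
          (if Gd g (p (fun i => w i.succ.succ)) (w 0) x₁ (fun i => c i (fun j => w j.succ.succ))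
            then H1 g (p (fun i => w i.succ.succ)) (w 0) x₁
              (fun i => c i (fun j => w j.succ.succ)) else 0)
          (w (Fin.succ 0)) (p (fun i => w i.succ.succ))
          (enc (p (fun i => w i.succ.succ)) (c (Fin.last _) (fun j => w j.succ.succ)))))
      hp2 ?_
    exact g3.and q3
  have g2 := gd_def g (x₀ := fun w : Fin (n + 1 + 1) → ℕ => w (Fin.succ 0))
    (x₁ := fun w => w 0) hp2 (DFun.proj _) (DFun.proj _) hc2
  have E2 : Delta0 n (fun v => ∃ x₀, x₀ ≤ p v ∧ ∃ x₁, x₁ ≤ p v ∧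
      Gd g (p v) x₀ x₁ (fun i => c i v)) := by
    refine Delta0.bexFun (b := p) (P := fun x₀ v => ∃ x₁, x₁ ≤ p v ∧
      Gd g (p v) x₀ x₁ (fun i => c i v)) hp ?_
    exact Delta0.bexFun (b := fun w : Fin (n + 1) → ℕ => p (fun i => w i.succ))
      (P := fun x₁ w => Gd g (p (fun i => w i.succ)) (w 0) x₁
        (fun i => c i (fun j => w j.succ))) hp.weak g2
  have E3 : Delta0 n (fun v => K < p v ∧ ∃ x₀, x₀ ≤ p v ∧ ∃ x₁, x₁ ≤ p v ∧
      Gd g (p v) x₀ x₁ (fun i => c i v)) := (Delta0.ltFun (DFun.const K) hp).and E2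
  have E3' := E3.rename (n := n + 1) Fin.succ
  refine DFun.ofGraph (hp.mul hp) ?_ ?_
  · intro v
    split_ifs
    · unfold HN
      refine (Finset.card_filter_le _ _).trans ?_
      rw [card_product, card_range]
    · exact Nat.zero_le _
  · refine (((E3'.and E1).or (E3'.not.and (Delta0.eqFun (DFun.proj 0)
      (DFun.const 0))))).of_iff ?_
    intro w
    by_cases h : K < p (fun i => w i.succ) ∧ ∃ x₀, x₀ ≤ p (fun i => w i.succ) ∧
        ∃ x₁, x₁ ≤ p (fun i => w i.succ) ∧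
          Gd g (p (fun i => w i.succ)) x₀ x₁ (fun i => c i (fun j => w j.succ))
    · rw [if_pos h]
      constructor
      · intro hw
        refine Or.inl ⟨h, ?_⟩
        obtain ⟨hKp, x₀, hx₀, x₁, hx₁, hG⟩ := h
        refine ⟨x₀, hx₀, x₁, hx₁, hG, ?_⟩
        rw [if_pos hG, if_pos hG]
        exact (key_One hn (lt_of_le_of_lt hK hKp) hG).2 hw
      · rintro (⟨_, x₀, _, x₁, _, hG, hI⟩ | ⟨h1, _⟩)
        · rw [if_pos hG, if_pos hG] at hI
          exact (key_One hn (lt_of_le_of_lt hK h.1) hG).1 hI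
        · exact absurd h h1
    · rw [if_neg h]
      constructor
      · intro hw
        exact Or.inr ⟨h, hw⟩
      · rintro (⟨h1, _⟩ | ⟨_, h1⟩)
        · exact absurd h1 h
        · exact h1

theorem hn_sq {g : ℕ} (hg : 1 ≤ g) {n : ℕ} {p : (Fin n → ℕ) → ℕ}
    {c : Fin (2 * g + 2 + 1) → (Fin n → ℕ) → ℕ} (hp : DFun n p) (hc : ∀ i, DFun n (c i)) :
    DFun n (fun v => if Sq g (p v) (fun i => c i v) then HN (p v) (fun i => c i v) else 0) := by
  obtain ⟨p₀, hn⟩ := near g hg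
  have hKp : p₀ ≤ max p₀ 2 := le_max_left _ _
  have hK2 : 2 ≤ max p₀ 2 := le_max_right _ _
  generalize max p₀ 2 = K at hKp hK2
  have hT := third_One hn hKp hp hc
  have hS := hn_small K hp hc
  have hA : Delta0 n (fun v => ∀ x, x ≤ p v → (p v ∣ pv (fun i => c i v) x ∨
      ¬ SqP (p v) (pv (fun i => c i v) x))) := by
    refine Delta0.ballFun (b := p) (P := fun x v => p v ∣ pv (fun i => c i v) x ∨
      ¬ SqP (p v) (pv (fun i => c i v) x)) hp ?_
    have h1 := pv_def (c := fun i (w : Fin (n + 1) → ℕ) => c i (fun j => w j.succ))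
      (fun i => (hc i).weak) (DFun.proj 0)
    exact (ECD.delta_dvd hp.weak h1).or (sqP_def hp.weak h1).not
  have hB : Delta0 n (fun v => ∀ x, x ≤ p v → SqP (p v) (pv (fun i => c i v) x)) := by
    refine Delta0.ballFun (b := p) (P := fun x v => SqP (p v) (pv (fun i => c i v) x)) hp ?_
    have h1 := pv_def (c := fun i (w : Fin (n + 1) → ℕ) => c i (fun j => w j.succ))
      (fun i => (hc i).weak) (DFun.proj 0)
    exact sqP_def hp.weak h1
  have hZ : DFun n (fun v => min (2 * g + 2) #{x ∈ range (p v) | p v ∣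
      pv (fun i => c i v) x}) := by
    have h1 := pv_def (c := fun i (w : Fin (n + 1) → ℕ) => c i (fun j => w j.succ))
      (fun i => (hc i).weak) (DFun.proj 0)
    have h2 := PtC.cnt_small (2 * g + 2) (A := fun x v => p v ∣ pv (fun i => c i v) x) hp
      (ECD.delta_dvd hp.weak h1)
    refine ECD.dfun_congr h2 fun v => ?_
    refine congrArg (min (2 * g + 2)) (congrArg Finset.card ?_)
    ext x
    simp only [Finset.mem_filter]
  have hmain := DFun.ite (sq_def g hp hc) (DFun.ite (Delta0.leFun hp (DFun.const K)) hS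
    (DFun.ite hA hZ (DFun.ite hB (((DFun.const 2).mul hp).sub hZ) hT))) (DFun.const 0)
  refine ECD.dfun_congr hmain fun v => ?_
  by_cases hsq : Sq g (p v) (fun i => c i v)
  swap
  · rw [if_neg hsq, if_neg hsq]
  rw [if_pos hsq, if_pos hsq]
  by_cases hpK : p v ≤ K
  · rw [if_pos hpK, if_pos hpK]
  rw [if_neg hpK]
  obtain ⟨hpr, hp2, hs, hd⟩ := hsq
  have hF : Fact (p v).Prime := ⟨hpr⟩
  have hz : pz (p v) (fun i => c i v) ≠ 0 := by
    intro h0
    rw [h0, natDegree_zero] at hd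
    omega
  have hmin : min (2 * g + 2) #{x ∈ range (p v) | p v ∣ pv (fun i => c i v) x} =
      #{x ∈ range (p v) | p v ∣ pv (fun i => c i v) x} := min_eq_right (zeros_One _ hz)
  by_cases hAv : ∀ x, x ≤ p v → (p v ∣ pv (fun i => c i v) x ∨
      ¬ SqP (p v) (pv (fun i => c i v) x))
  · rw [if_pos hAv, hmin, caseA_One hp2 _ hAv]
  rw [if_neg hAv]
  by_cases hBv : ∀ x, x ≤ p v → SqP (p v) (pv (fun i => c i v) x)
  · rw [if_pos hBv, hmin, caseB_One hp2 _ hBv]
  rw [if_neg hBv]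
  push Not at hAv hBv
  obtain ⟨x₁, hx₁, h1, h2⟩ := hAv
  obtain ⟨x₀, hx₀, h3⟩ := hBv
  rw [if_pos]
  refine ⟨by omega, x₀, hx₀, x₁, hx₁, hpr, hp2, hs, hd, ?_, ?_, ?_⟩
  · rw [← pv_cast_One]
    exact fun h => h3 ((sqP_iff _).2 h)
  · rw [← pv_cast_One]
    exact (sqP_iff _).1 h2
  · rw [← pv_cast_One]
    exact fun h => h1 ((ZMod.natCast_eq_zero_iff _ _).1 h)

end Pool.Agent.HyD
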