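import Pool.Agent.HyD.Sqf

/-!
# Package HyD-Two: equations of degree two in `y`

Complete proofs. Write `a = c 2`, `b = c 1`, `e = c 0` (polynomials in `x`), `Δ = b² - 4 a e`, with
coefficients `disc p c` (natural numbers; `-4 = 4 (p - 1)` modulo `p`).

* `disc_eq`: modulo `p` the value of `disc p c` is `b(x)² - 4 a(x) e(x)`.
* `bn_eq`, `p` odd: `BN = ∑_x N_x`, `N_x` the number of `y` with `a(x) y² + b(x) y + e(x) = 0`:
  `1 + qc (Δ(x))` if `a(x) ≠ 0` (complete the square); if `a(x) = 0`: `1` if `b(x) ≠ 0`, `p` if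
  `b(x) = e(x) = 0`, `0` otherwise. Since `Δ(x) = b(x)²` if `a(x) = 0`, in all cases
  `N_x = 1 + qc (Δ(x)) - [a(x) = 0] + p [a(x) = b(x) = e(x) = 0]`. Sum over `x`.
* `zn_def`: the number of the zeros `x < p` of finitely many polynomials of bounded degree: `p` if all
  coefficients are divisible by `p`, otherwise at most `D`: `PtC.cnt_small`.
* `bn_prime`: `p = 2`: `bn_small`; otherwise `bn_eq`, `hn_prime`, `zn_def`.
-/

set_option autoImplicit false

noncomputable section

namespace Pool.Agent.HyD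

open Finset Polynomial Pool.Agent.Grz Pool.Agent.HyE Pool.Agent.HyZ
open scoped Classical

/-- the coefficients of the discriminant -/
def disc {D : ℕ} (p : ℕ) (c : Fin 3 → Fin (D + 1) → ℕ) (i : Fin (2 * D + 1)) : ℕ :=
  ∑ j : Fin (D + 1), ∑ l : Fin (D + 1), if (j : ℕ) + l = i then
    c 1 j * c 1 l + 4 * (p - 1) * (c 2 j * c 0 l) else 0

private theorem pvd_Two {D p : ℕ} (c : Fin 3 → Fin (D + 1) → ℕ) (x : ℕ) :
    pv (disc p c) x = pv (c 1) x * pv (c 1) x + 4 * (p - 1) * (pv (c 2) x * pv (c 0) x) := by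
  have h1 : pv (disc p c) x = ∑ j : Fin (D + 1), ∑ l : Fin (D + 1),
      (c 1 j * c 1 l + 4 * (p - 1) * (c 2 j * c 0 l)) * x ^ ((j : ℕ) + l) := by
    unfold pv disc
    simp only [Finset.sum_mul]
    rw [Finset.sum_comm]
    refine Finset.sum_congr rfl fun j _ => ?_
    rw [Finset.sum_comm]
    refine Finset.sum_congr rfl fun l _ => ?_
    have hj := j.2
    have hl := l.2
    rw [Finset.sum_eq_single (⟨(j : ℕ) + l, by omega⟩ : Fin (2 * D + 1))]
    · rw [if_pos rfl]
    · intro b _ hb
      rw [if_neg, zero_mul]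
      intro h
      exact hb (Fin.ext h.symm)
    · intro h
      exact absurd (Finset.mem_univ _) h
  rw [h1]
  unfold pv
  rw [Finset.sum_mul_sum, Finset.sum_mul_sum, Finset.mul_sum, ← Finset.sum_add_distrib]
  refine Finset.sum_congr rfl fun j _ => ?_
  rw [Finset.mul_sum, ← Finset.sum_add_distrib]
  refine Finset.sum_congr rfl fun l _ => ?_
  rw [pow_add]
  ring

private theorem inj_Two {p s t : ℕ} (hs : s < p) (ht : t < p)
    (h : (s : ZMod p) = (t : ZMod p)) : s = t := by
  rw [ZMod.natCast_eq_natCast_iff'] at h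
  rwa [Nat.mod_eq_of_lt hs, Nat.mod_eq_of_lt ht] at h

private theorem sum_Two {p : ℕ} [NeZero p] (f : ZMod p → ℕ) :
    ∑ t ∈ range p, f (t : ZMod p) = ∑ t : ZMod p, f t := by
  refine Finset.sum_bij (fun t _ => (t : ZMod p)) (fun t _ => mem_univ _) ?_ ?_ ?_
  · intro s hs t ht h
    exact inj_Two (mem_range.1 hs) (mem_range.1 ht) h
  · intro b _
    exact ⟨b.val, mem_range.2 (ZMod.val_lt b), ZMod.natCast_zmod_val b⟩
  · intro t _
    rfl

private theorem card_Two {p : ℕ} [NeZero p] (Q : ℕ → Prop) (P : ZMod p → Prop)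
    [DecidablePred Q] [DecidablePred P] (h : ∀ t, Q t ↔ P (t : ZMod p)) :
    #{t ∈ range p | Q t} = #{t : ZMod p | P t} := by
  rw [card_filter, card_filter, ← sum_Two (fun t => if P t then 1 else 0)]
  refine sum_congr rfl fun t _ => ?_
  by_cases hq : Q t
  · rw [if_pos hq, if_pos ((h t).1 hq)]
  · rw [if_neg hq, if_neg fun h' => hq ((h t).2 h')]

private theorem field_Two {p : ℕ} [Fact p.Prime] (hp : p ≠ 2) (a b e : ZMod p) :
    #{y : ZMod p | a * y ^ 2 + b * y + e = 0} + (if a = 0 then 1 else 0) =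
      #{t : ZMod p | t ^ 2 = b ^ 2 - 4 * a * e} + p * (if a = 0 ∧ b = 0 ∧ e = 0 then 1 else 0) := by
  have h2 : (2 : ZMod p) ≠ 0 := by
    have hr : ringChar (ZMod p) ≠ 2 := by rwa [ZMod.ringChar_zmod_n]
    exact Ring.two_ne_zero hr
  by_cases ha : a = 0
  · subst ha
    rw [if_pos rfl]
    by_cases hb : b = 0
    · subst hb
      have h3 : ({t : ZMod p | t ^ 2 = (0 : ZMod p) ^ 2 - 4 * 0 * e} : Finset (ZMod p)) = {0} := by
        ext t
        simp
      rw [h3, card_singleton]
      by_cases he : e = 0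
      · subst he
        rw [if_pos ⟨rfl, rfl, rfl⟩]
        have h4 : ({y : ZMod p | (0 : ZMod p) * y ^ 2 + 0 * y + 0 = 0} : Finset (ZMod p)) =
            Finset.univ := by
          ext t
          simp
        rw [h4, card_univ, ZMod.card]
        ring
      · rw [if_neg fun h => he h.2.2]
        have h4 : ({y : ZMod p | (0 : ZMod p) * y ^ 2 + 0 * y + e = 0} : Finset (ZMod p)) = ∅ := by
          ext t
          simp [he]
        rw [h4, card_empty, mul_zero, zero_add, add_zero]
    · rw [if_neg fun h => hb h.2.1]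
      have h3 : ({t : ZMod p | t ^ 2 = b ^ 2 - 4 * 0 * e} : Finset (ZMod p)) = {b, -b} := by
        ext t
        have h5 : b ^ 2 - 4 * 0 * e = b ^ 2 := by ring
        simp only [mem_filter, mem_univ, true_and, mem_insert, mem_singleton, h5]
        exact sq_eq_sq_iff_eq_or_eq_neg
      have h6 : b ≠ -b := by
        intro h
        have h7 : 2 * b = 0 := by
          have : b + b = 0 := by
            nth_rewrite 1 [h]
            ring
          rw [two_mul]
          exact this
        rcases mul_eq_zero.1 h7 with h8 | h8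
        · exact h2 h8
        · exact hb h8
      have h4 : ({y : ZMod p | (0 : ZMod p) * y ^ 2 + b * y + e = 0} : Finset (ZMod p)) =
          {-e / b} := by
        ext t
        simp only [mem_filter, mem_univ, true_and, mem_singleton]
        rw [eq_div_iff hb]
        constructor
        · intro h
          linear_combination h
        · intro h
          linear_combination h
      rw [h3, h4, card_singleton, card_pair h6, mul_zero, add_zero]
  · rw [if_neg ha, if_neg fun h => ha h.1, add_zero, mul_zero, add_zero]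
    have h2a : 2 * a ≠ 0 := mul_ne_zero h2 ha
    refine Finset.card_bij (fun y _ => 2 * a * y + b) ?_ ?_ ?_
    · intro y hy
      have hy' := (mem_filter.1 hy).2
      refine mem_filter.2 ⟨mem_univ _, ?_⟩
      linear_combination 4 * a * hy'
    · intro y _ z _ h
      have h3 : 2 * a * (y - z) = 0 := by linear_combination h
      rcases mul_eq_zero.1 h3 with h4 | h4
      · exact absurd h4 h2a
      · exact sub_eq_zero.1 h4
    · intro t ht
      have ht' := (mem_filter.1 ht).2
      have h3 : 2 * a * ((t - b) / (2 * a)) + b = t := by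
        rw [mul_div_cancel₀ _ h2a]
        ring
      refine ⟨(t - b) / (2 * a), mem_filter.2 ⟨mem_univ _, ?_⟩, h3⟩
      set y := (t - b) / (2 * a) with hy
      have h4 : 4 * a * (a * y ^ 2 + b * y + e) = 0 := by
        have h5 : (2 * a * y + b) ^ 2 = b ^ 2 - 4 * a * e := by rw [h3]; exact ht'
        linear_combination h5
      have h6 : (4 : ZMod p) * a ≠ 0 := by
        have : (4 : ZMod p) * a = 2 * (2 * a) := by ring
        rw [this]
        exact mul_ne_zero h2 h2a
      rcases mul_eq_zero.1 h4 with h7 | h7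
      · exact absurd h7 h6
      · exact h7

private theorem val_Two {D : ℕ} (c : Fin 3 → Fin (D + 1) → ℕ) (x y : ℕ) :
    ∑ j, ∑ i, c j i * x ^ (i : ℕ) * y ^ (j : ℕ) =
      pv (c 2) x * y ^ 2 + pv (c 1) x * y + pv (c 0) x := by
  rw [Fin.sum_univ_three]
  unfold pv
  simp only [Finset.sum_mul]
  simp only [Fin.val_zero, Fin.val_one, Fin.val_two, pow_zero, mul_one, pow_one]
  ring

theorem disc_eq {D p : ℕ} [Fact p.Prime] (c : Fin 3 → Fin (D + 1) → ℕ) (x : ℕ) :
    (pv (disc p c) x : ZMod p) =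
      (pv (c 1) x : ZMod p) ^ 2 - 4 * (pv (c 2) x : ZMod p) * (pv (c 0) x : ZMod p) := by
  have h1 : 1 ≤ p := (Fact.out : p.Prime).one_lt.le
  have hp1 : ((p - 1 : ℕ) : ZMod p) = -1 := by
    rw [Nat.cast_sub h1, Nat.cast_one, ZMod.natCast_self, zero_sub]
  rw [pvd_Two, Nat.cast_add, Nat.cast_mul, Nat.cast_mul, Nat.cast_mul, Nat.cast_mul, hp1]
  push_cast
  ring

theorem bn_eq {D p : ℕ} [Fact p.Prime] (hp : p ≠ 2) (c : Fin 3 → Fin (D + 1) → ℕ) :
    BN p c + #{x ∈ range p | p ∣ pv (c 2) x} = HN p (disc p c) +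
      p * #{x ∈ range p | p ∣ pv (c 2) x ∧ p ∣ pv (c 1) x ∧ p ∣ pv (c 0) x} := by
  have hN : NeZero p := ⟨(Fact.out : p.Prime).ne_zero⟩
  have h1 : BN p c = ∑ x ∈ range p,
      #{y ∈ range p | p ∣ pv (c 2) x * y ^ 2 + pv (c 1) x * y + pv (c 0) x} := by
    unfold BN
    rw [card_filter, sum_product]
    refine sum_congr rfl fun x _ => ?_
    rw [card_filter]
    refine sum_congr rfl fun y _ => ?_
    rw [val_Two]
  have h2 : HN p (disc p c) = ∑ x ∈ range p,
      #{y ∈ range p | y ^ 2 ≡ pv (disc p c) x [MOD p]} := by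
    unfold HN
    rw [card_filter, sum_product]
    refine sum_congr rfl fun x _ => ?_
    rw [card_filter]
  rw [h1, h2, card_filter, card_filter, mul_sum, ← sum_add_distrib, ← sum_add_distrib]
  refine sum_congr rfl fun x _ => ?_
  have h3 := field_Two hp (pv (c 2) x : ZMod p) (pv (c 1) x : ZMod p) (pv (c 0) x : ZMod p)
  have h4 : #{y ∈ range p | p ∣ pv (c 2) x * y ^ 2 + pv (c 1) x * y + pv (c 0) x} =
      #{y : ZMod p | (pv (c 2) x : ZMod p) * y ^ 2 + (pv (c 1) x : ZMod p) * y +
        (pv (c 0) x : ZMod p) = 0} := by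
    refine card_Two (p := p) _ _ fun t => ?_
    rw [← ZMod.natCast_eq_zero_iff]
    push_cast
    rfl
  have h5 : #{y ∈ range p | y ^ 2 ≡ pv (disc p c) x [MOD p]} =
      #{t : ZMod p | t ^ 2 = (pv (c 1) x : ZMod p) ^ 2 -
        4 * (pv (c 2) x : ZMod p) * (pv (c 0) x : ZMod p)} := by
    refine card_Two (p := p) _ _ fun t => ?_
    rw [← ZMod.natCast_eq_natCast_iff, disc_eq]
    push_cast
    rfl
  simp only [ZMod.natCast_eq_zero_iff] at h3
  rw [h4, h5]
  exact h3

private theorem roots_Two {p : ℕ} (hp : p.Prime) (f : (ZMod p)[X]) (hf : f ≠ 0)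
    (P : ℕ → Prop) [DecidablePred P] (hP : ∀ t, P t → f.eval (t : ZMod p) = 0) :
    #{t ∈ range p | P t} ≤ f.natDegree := by
  have : Fact p.Prime := ⟨hp⟩
  have h1 : #{t ∈ range p | P t} ≤ #f.roots.toFinset := by
    apply Finset.card_le_card_of_injOn (fun t : ℕ => (t : ZMod p))
    · intro t ht
      have ht' := (Finset.mem_filter.1 (Finset.mem_coe.1 ht)).2
      rw [Finset.mem_coe, Multiset.mem_toFinset, Polynomial.mem_roots hf]
      exact hP t ht'
    · intro a ha b hb hab
      exact inj_Two (Finset.mem_range.1 (Finset.mem_filter.1 (Finset.mem_coe.1 ha)).1)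
        (Finset.mem_range.1 (Finset.mem_filter.1 (Finset.mem_coe.1 hb)).1) hab
  exact h1.trans ((Multiset.toFinset_card_le _).trans (Polynomial.card_roots' f))

private theorem pz_eval_Two {p D : ℕ} (c : Fin (D + 1) → ℕ) (x : ℕ) :
    (pz p c).eval (x : ZMod p) = (pv c x : ZMod p) := by
  unfold pz pv
  rw [eval_finsetSum]
  push_cast
  refine sum_congr rfl fun i _ => ?_
  rw [eval_mul, eval_C, eval_pow, eval_X]

private theorem pz_ne_Two {p D : ℕ} (c : Fin (D + 1) → ℕ) (i : Fin (D + 1)) (h : ¬ p ∣ c i) :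
    pz p c ≠ 0 := by
  intro h0
  have h1 : (pz p c).coeff (i : ℕ) = (c i : ZMod p) := by
    unfold pz
    rw [finsetSum_coeff, sum_eq_single i]
    · rw [coeff_C_mul, coeff_X_pow, if_pos rfl, mul_one]
    · intro b _ hb
      rw [coeff_C_mul, coeff_X_pow, if_neg, mul_zero]
      intro h2
      exact hb (Fin.ext h2.symm)
    · intro h2
      exact absurd (mem_univ _) h2
  rw [h0, coeff_zero] at h1
  exact h ((ZMod.natCast_eq_zero_iff _ _).1 h1.symm)

private theorem pz_deg_Two {p D : ℕ} (c : Fin (D + 1) → ℕ) : (pz p c).natDegree ≤ D := by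
  unfold pz
  refine natDegree_sum_le_of_forall_le _ _ fun i _ => ?_
  refine (natDegree_C_mul_X_pow_le _ _).trans ?_
  have := i.2
  omega

theorem zn_def {D n k : ℕ} {p : (Fin n → ℕ) → ℕ} {c : Fin k → Fin (D + 1) → (Fin n → ℕ) → ℕ}
    (hp : DFun n p) (hc : ∀ j i, DFun n (c j i)) :
    DFun n (fun v => if (p v).Prime then
      #{x ∈ range (p v) | ∀ j, p v ∣ pv (fun i => c j i v) x} else 0) := by
  have hA : Delta0 (n + 1) (fun w => ∀ j, p (fun i => w i.succ) ∣
      pv (fun i => c j i (fun i => w i.succ)) (w 0)) := by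
    refine Pool.Agent.PTr.Delta0.allOf fun j => ?_
    exact Pool.Agent.ECD.delta_dvd hp.weak (pv_def (fun i => (hc j i).weak) (DFun.proj 0))
  have hQ : Delta0 n (fun v => ∀ j, ∀ i, p v ∣ c j i v) :=
    Pool.Agent.PTr.Delta0.allOf fun j => Pool.Agent.PTr.Delta0.allOf fun i =>
      Pool.Agent.ECD.delta_dvd hp (hc j i)
  have h1 := Pool.Agent.PtC.cnt_small (n := n) D (B := p)
    (A := fun x v => ∀ j, p v ∣ pv (fun i => c j i v) x) hp hA
  refine Pool.Agent.ECD.dfun_congr (DFun.ite (Pool.Agent.ECD.delta_prime hp)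
    (DFun.ite hQ hp h1) (DFun.const 0)) fun v => ?_
  by_cases hpr : (p v).Prime
  · rw [if_pos hpr, if_pos hpr]
    by_cases hq : ∀ j, ∀ i, p v ∣ c j i v
    · rw [if_pos hq]
      have h2 : ({x ∈ range (p v) | ∀ j, p v ∣ pv (fun i => c j i v) x} : Finset ℕ) =
          range (p v) := by
        refine filter_true_of_mem fun x _ j => ?_
        unfold pv
        exact dvd_sum fun i _ => (hq j i).mul_right _
      rw [h2, card_range]
    · rw [if_neg hq]
      push Not at hq
      obtain ⟨j, i, hji⟩ := hq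
      have h2 : #{x ∈ range (p v) | ∀ j, p v ∣ pv (fun i => c j i v) x} ≤ D := by
        refine (roots_Two hpr (pz (p v) (fun i => c j i v))
          (pz_ne_Two (fun i => c j i v) i hji) _ ?_).trans (pz_deg_Two _)
        intro t ht
        rw [pz_eval_Two]
        exact (ZMod.natCast_eq_zero_iff _ _).2 (ht j)
      have h3 : ∀ m : ℕ, m ≤ D → m = min D m := fun m hm => by omega
      convert h3 _ h2
  · rw [if_neg hpr, if_neg hpr]

theorem bn_prime {D n : ℕ} {p : (Fin n → ℕ) → ℕ} {c : Fin 3 → Fin (D + 1) → (Fin n → ℕ) → ℕ}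
    (hp : DFun n p) (hc : ∀ j i, DFun n (c j i)) :
    DFun n (fun v => if (p v).Prime then BN (p v) (fun j i => c j i v) else 0) := by
  have hd : ∀ i : Fin (2 * D + 1), DFun n (fun v => disc (p v) (fun j i => c j i v) i) := by
    intro i
    unfold disc
    refine Pool.Agent.PTr.DFun.finSum Finset.univ fun j => ?_
    refine Pool.Agent.PTr.DFun.finSum Finset.univ fun l => ?_
    by_cases h : (j : ℕ) + l = i
    · simp only [if_pos h]
      exact ((hc 1 j).mul (hc 1 l)).add (((DFun.const 4).mul (hp.sub (DFun.const 1))).mul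
        ((hc 2 j).mul (hc 0 l)))
    · simp only [if_neg h]
      exact DFun.const 0
  have h1 := hn_prime (D := 2 * D) hp hd
  have h2 := zn_def (k := 1) (c := fun _ i => c 2 i) hp (fun _ i => hc 2 i)
  have h3 := zn_def (k := 3) (c := c) hp hc
  have h4 := bn_small 2 hp hc
  refine Pool.Agent.ECD.dfun_congr (DFun.ite (Pool.Agent.ECD.delta_prime hp)
    (DFun.ite (Delta0.leFun hp (DFun.const 2)) h4 ((h1.add (hp.mul h3)).sub h2))
    (DFun.const 0)) fun v => ?_
  by_cases hpr : (p v).Prime
  · rw [if_pos hpr, if_pos hpr]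
    by_cases hq : p v ≤ 2
    · rw [if_pos hq, if_pos hq]
    · rw [if_neg hq, if_pos hpr, if_pos hpr, if_pos hpr]
      have hf : Fact (p v).Prime := ⟨hpr⟩
      have h5 := bn_eq (p := p v) (by omega) (fun j i => c j i v)
      have h6 : #{x ∈ range (p v) | ∀ _j : Fin 1, p v ∣ pv (fun i => c 2 i v) x} =
          #{x ∈ range (p v) | p v ∣ pv (fun i => c 2 i v) x} := by
        congr 1
        refine filter_congr fun x _ => ?_
        exact ⟨fun h => h 0, fun h _ => h⟩
      have h7 : #{x ∈ range (p v) | ∀ j : Fin 3, p v ∣ pv (fun i => c j i v) x} =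
          #{x ∈ range (p v) | p v ∣ pv (fun i => c 2 i v) x ∧ p v ∣ pv (fun i => c 1 i v) x ∧
            p v ∣ pv (fun i => c 0 i v) x} := by
        congr 1
        refine filter_congr fun x _ => ?_
        constructor
        · intro h
          exact ⟨h 2, h 1, h 0⟩
        · rintro ⟨h8, h9, h10⟩ j
          fin_cases j
          · exact h10
          · exact h9
          · exact h8
      have h8 : HN (p v) (disc (p v) fun j i => c j i v) =
          HN (p v) (fun i => disc (p v) (fun j i => c j i v) i) := rfl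
      rw [h8] at h5
      rw [h6, h7]
      omega
  · rw [if_neg hpr, if_neg hpr]

end Pool.Agent.HyD
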